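import Pool.Agent.Lib_MP_008adc_t3.Defs
import Pool.Agent.Lib_MP_008adc_c3.B0

/-!
# Piece PR: existence of the prime sets
-/

set_option autoImplicit false

namespace HadT3

open Finset HadLLL

theorem ex_aux (j : ℕ) : 400000000 * (2 * j + 41) ^ 2 ≤ 2 ^ (40 + j) := by
  induction j with
  | zero => norm_num
  | succ j ih =>
    have h1 : (2 : ℕ) ^ (40 + (j + 1)) = 2 * 2 ^ (40 + j) := by
      rw [← pow_succ']
      congr 1
    rw [h1]
    have h2 : (2 * (j + 1) + 41) ^ 2 ≤ 2 * (2 * j + 41) ^ 2 := by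
      have h3 : 2 * (2 * j + 41) ^ 2 = (2 * (j + 1) + 41) ^ 2 + (4 * j ^ 2 + 156 * j + 1513) := by ring
      rw [h3]
      exact Nat.le_add_right _ _
    calc 400000000 * (2 * (j + 1) + 41) ^ 2 ≤ 400000000 * (2 * (2 * j + 41) ^ 2) := Nat.mul_le_mul_left _ h2
      _ = 2 * (400000000 * (2 * j + 41) ^ 2) := by ring
      _ ≤ _ := Nat.mul_le_mul_left _ ih

theorem ex_bound (e d : ℕ) (hd : 4 * e + 40 ≤ d) :
    100 * (1000 * (d + 1)) ^ 2 * (2 ^ e + 1) ^ 2 ≤ 2 ^ d := by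
  obtain ⟨j, hj⟩ : ∃ j, d = 2 * e + (40 + j) := ⟨d - 2 * e - 40, by omega⟩
  have h1 : 2 * e ≤ j := by omega
  have h2 := ex_aux j
  have h3 : (2 ^ e + 1) ^ 2 ≤ 4 * 2 ^ (2 * e) := by
    have h4 : 1 ≤ 2 ^ e := Nat.one_le_two_pow
    calc (2 ^ e + 1) ^ 2 ≤ (2 ^ e + 2 ^ e) ^ 2 := by gcongr
      _ = 4 * 2 ^ (2 * e) := by
        rw [mul_comm 2 e, pow_mul]
        ring
  have h5 : (d + 1) ^ 2 ≤ (2 * j + 41) ^ 2 := by
    apply Nat.pow_le_pow_left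
    omega
  calc 100 * (1000 * (d + 1)) ^ 2 * (2 ^ e + 1) ^ 2 = 100000000 * (d + 1) ^ 2 * (2 ^ e + 1) ^ 2 := by ring
    _ ≤ 100000000 * (2 * j + 41) ^ 2 * (4 * 2 ^ (2 * e)) := by gcongr
    _ = 2 ^ (2 * e) * (400000000 * (2 * j + 41) ^ 2) := by ring
    _ ≤ 2 ^ (2 * e) * 2 ^ (40 + j) := by gcongr
    _ = 2 ^ d := by rw [← pow_add, hj]

/-- PIECE PR (file Exists.lean): existence of the prime sets. -/
theorem exists_ps (e d : ℕ) (hd : 4 * e + 40 ≤ d) : ∃ (y Pc : ℕ) (P : ℕ → Finset ℕ),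
    PS (1000 * (d + 1)) d (2 ^ e + 1) y Pc P := by
  have hdb : d ≤ 1000 * (d + 1) := by omega
  obtain ⟨y, P, h1, h2, h3, h4, h5⟩ := prime_sets (1000 * (d + 1)) (2 ^ e + 1) d (by omega) (Nat.le_add_left _ _) hdb
    (ex_bound e d hd)
  have h6 : 2 ^ (1000 * (d + 1)) = 2 ^ d * 2 ^ (1000 * (d + 1) - d) := by
    rw [← pow_add]
    congr 1
    omega
  refine ⟨y, 2 ^ (1000 * (d + 1) - d), fun j => if h : j < 2 ^ e + 1 then P ⟨j, h⟩ else ∅, ?_⟩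
  refine ⟨?_, ?_, ?_, ?_, ?_, h1, ?_, h6.le, ?_⟩
  · intro j hj p hp
    rw [dif_pos hj] at hp
    exact (h4 _ p hp).1
  · intro j hj p hp
    rw [dif_pos hj] at hp
    exact (h4 _ p hp).2.1
  · intro j hj p hp
    rw [dif_pos hj] at hp
    exact (h4 _ p hp).2.2
  · intro i hi j hj hij
    rw [dif_pos hi, dif_pos hj]
    exact h5 _ _ (fun h => hij (congrArg Fin.val h))
  · intro j hj
    rw [dif_pos hj]
    exact h3 _
  · rw [h6]
    exact Nat.mul_le_mul_left _ h2.le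
  · have : 1 ≤ 2 ^ e := Nat.one_le_two_pow
    omega

end HadT3
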