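import Mathlib
import Pool.Agent.Lib_MP_008adc_c3.B1

/-!
# Products of primes from disjoint sets: definitions and elementary facts
-/

set_option autoImplicit false

namespace HadT3

open Finset HadLLL

/-- disjoint sets of primes `P 0, …, P (K-1)` close to `y`, each with `Pc` elements. -/
structure PS (b d K y Pc : ℕ) (P : ℕ → Finset ℕ) : Prop where
  prime : ∀ j < K, ∀ p ∈ P j, p.Prime
  lt : ∀ j < K, ∀ p ∈ P j, p < y
  close : ∀ j < K, ∀ p ∈ P j, (K - 1) * y ≤ K * p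
  disj : ∀ i < K, ∀ j < K, i ≠ j → Disjoint (P i) (P j)
  card : ∀ j < K, (P j).card = Pc
  yb : y ≤ 2 ^ b
  yd : 2 ^ b ≤ 2 ^ d * y
  cd : 2 ^ b ≤ 2 ^ d * Pc
  K2 : 2 ≤ K

/-- products of one prime from each of `P i, …, P (i+k-1)` -/
def PB (P : ℕ → Finset ℕ) : ℕ → ℕ → Finset ℕ
  | _, 0 => {1}
  | i, k + 1 => image₂ (fun x y => x * y) (P i) (PB P (i + 1) k)

/-- odd numbers below `2^b0` -/
def XO (b0 : ℕ) : Finset ℕ := (range (2 ^ b0)).filter (fun x => x % 2 = 1)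

/-- the set `{x p_0 ⋯ p_{k-1}}` -/
def TB (P : ℕ → Finset ℕ) (b0 k : ℕ) : Finset ℕ := image₂ (fun x y => x * y) (XO b0) (PB P 0 k)

/-- the exponential sum over `T` -/
noncomputable def SR (T : Finset ℕ) (α : ℝ) : ℂ := ∑ t ∈ T, eR (α * t)

variable {b d K y Pc : ℕ} {P : ℕ → Finset ℕ}

/-- every prime factor of an element of `PB P i k` is in some `P j`, `i ≤ j < i + k`. -/
theorem PB_factor (ps : PS b d K y Pc P) : ∀ (k i : ℕ), i + k ≤ K → ∀ n ∈ PB P i k, ∀ r : ℕ,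
    r.Prime → r ∣ n → ∃ j, i ≤ j ∧ j < i + k ∧ r ∈ P j := by
  intro k
  induction k with
  | zero =>
    intro i _ n hn r hr hrn
    simp only [PB, mem_singleton] at hn
    subst hn
    exact absurd (Nat.dvd_one.1 hrn) hr.one_lt.ne'
  | succ k ih =>
    intro i hi n hn r hr hrn
    simp only [PB, mem_image₂] at hn
    obtain ⟨p, hp, m, hm, rfl⟩ := hn
    rcases (Nat.Prime.dvd_mul hr).1 hrn with h | h
    · have := (Nat.prime_dvd_prime_iff_eq hr (ps.prime i (by omega) p hp)).1 h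
      subst this
      exact ⟨i, le_rfl, by omega, hp⟩
    · obtain ⟨j, h1, h2, h3⟩ := ih (i + 1) (by omega) m hm r hr h
      exact ⟨j, by omega, by omega, h3⟩

theorem PB_pos (ps : PS b d K y Pc P) (k i : ℕ) (h : i + k ≤ K) (n : ℕ) (hn : n ∈ PB P i k) : 1 ≤ n := by
  induction k generalizing i n with
  | zero =>
    simp only [PB, mem_singleton] at hn
    omega
  | succ k ih =>
    simp only [PB, mem_image₂] at hn
    obtain ⟨p, hp, m, hm, rfl⟩ := hn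
    have h1 := ih (i + 1) (by omega) m hm
    have h2 := (ps.prime i (by omega) p hp).pos
    exact Nat.mul_pos h2 h1

theorem PB_inj_aux (ps : PS b d K y Pc P) (i k : ℕ) (h : i + (k + 1) ≤ K) {p p' m m' : ℕ} (hp : p ∈ P i)
    (hp' : p' ∈ P i) (_hm : m ∈ PB P (i + 1) k) (hm' : m' ∈ PB P (i + 1) k) (he : p * m = p' * m') :
    p = p' ∧ m = m' := by
  have hpp := ps.prime i (by omega) p hp
  have hpp' := ps.prime i (by omega) p' hp'
  have h1 : p ∣ p' * m' := by rw [← he]; exact dvd_mul_right _ _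
  have h2 : p = p' := by
    rcases (Nat.Prime.dvd_mul hpp).1 h1 with h3 | h3
    · exact (Nat.prime_dvd_prime_iff_eq hpp hpp').1 h3
    · obtain ⟨j, h4, h5, h6⟩ := PB_factor ps k (i + 1) (by omega) m' hm' p hpp h3
      exact absurd h6 (Finset.disjoint_left.1 (ps.disj i (by omega) j (by omega) (by omega)) hp)
  subst h2
  exact ⟨rfl, Nat.eq_of_mul_eq_mul_left hpp.pos he⟩

theorem sum_image₂_of_inj {A : Type*} [AddCommMonoid A] (S T : Finset ℕ)
    (hinj : ∀ x ∈ S, ∀ x' ∈ S, ∀ n ∈ T, ∀ n' ∈ T, x * n = x' * n' → x = x' ∧ n = n') (g : ℕ → A) :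
    ∑ t ∈ image₂ (fun x y => x * y) S T, g t = ∑ x ∈ S, ∑ n ∈ T, g (x * n) := by
  have h1 : image₂ (fun x y : ℕ => x * y) S T = (S ×ˢ T).image (fun z => z.1 * z.2) := by
    ext t
    simp only [mem_image₂, mem_image, mem_product, Prod.exists]
    constructor
    · rintro ⟨a, ha, b, hb, rfl⟩
      exact ⟨a, b, ⟨ha, hb⟩, rfl⟩
    · rintro ⟨a, b, ⟨ha, hb⟩, rfl⟩
      exact ⟨a, ha, b, hb, rfl⟩
  rw [h1, sum_image, sum_product]
  rintro ⟨x, n⟩ h ⟨x', n'⟩ h' he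
  simp only [coe_product, Set.mem_prod, mem_coe] at h h'
  obtain ⟨e1, e2⟩ := hinj x h.1 x' h'.1 n h.2 n' h'.2 he
  rw [e1, e2]

theorem PB_sum {A : Type*} [AddCommMonoid A] (ps : PS b d K y Pc P) (i k : ℕ) (h : i + (k + 1) ≤ K) (g : ℕ → A) :
    ∑ n ∈ PB P i (k + 1), g n = ∑ p ∈ P i, ∑ n ∈ PB P (i + 1) k, g (p * n) := by
  exact sum_image₂_of_inj _ _ (fun x hx x' hx' n hn n' hn' he => PB_inj_aux ps i k h hx hx' hn hn' he) g

theorem PB_add {A : Type*} [AddCommMonoid A] (ps : PS b d K y Pc P) : ∀ (k i l : ℕ), i + k + l ≤ K → ∀ g : ℕ → A,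
    ∑ n ∈ PB P i (k + l), g n = ∑ u ∈ PB P i k, ∑ v ∈ PB P (i + k) l, g (u * v) := by
  intro k
  induction k with
  | zero =>
    intro i l _ g
    simp [PB]
  | succ k ih =>
    intro i l hi g
    rw [show k + 1 + l = (k + l) + 1 by ring, PB_sum ps i (k + l) (by omega), PB_sum ps i k (by omega)]
    refine sum_congr rfl fun p _ => ?_
    rw [ih (i + 1) l (by omega)]
    refine sum_congr rfl fun u _ => ?_
    rw [show i + 1 + k = i + (k + 1) by ring]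
    refine sum_congr rfl fun v _ => ?_
    rw [mul_assoc]

theorem PB_card (ps : PS b d K y Pc P) (i k : ℕ) (h : i + k ≤ K) : (PB P i k).card = Pc ^ k := by
  induction k generalizing i with
  | zero => simp [PB]
  | succ k ih =>
    rw [card_eq_sum_ones, PB_sum ps i k h (fun _ => 1)]
    simp only [sum_const, smul_eq_mul, mul_one]
    rw [ih (i + 1) (by omega), ps.card i (by omega), pow_succ]
    ring

theorem XO_eq (b0 : ℕ) (h : 1 ≤ b0) : XO b0 = (range (2 ^ (b0 - 1))).image (fun i => 2 * i + 1) := by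
  have h2 : 2 ^ b0 = 2 * 2 ^ (b0 - 1) := by
    rw [← pow_succ']
    congr 1
    omega
  ext x
  simp only [XO, mem_filter, mem_range, mem_image]
  constructor
  · rintro ⟨h1, h3⟩
    exact ⟨x / 2, by omega, by omega⟩
  · rintro ⟨i, hi, rfl⟩
    exact ⟨by omega, by omega⟩

theorem XO_card (b0 : ℕ) (h : 1 ≤ b0) : (XO b0).card = 2 ^ (b0 - 1) := by
  rw [XO_eq b0 h, card_image_of_injective _ (fun x y hxy => by have h3 : 2 * x + 1 = 2 * y + 1 := hxy; omega), card_range]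

theorem prime_big (ps : PS b d K y Pc P) (b0 : ℕ) (hb0 : 2 ^ (b0 + 1) ≤ y) (j : ℕ) (hj : j < K) (p : ℕ) (hp : p ∈ P j) :
    2 ^ b0 ≤ p := by
  have h1 := ps.close j hj p hp
  have h2 := ps.K2
  rw [pow_succ] at hb0
  obtain ⟨k, rfl⟩ : ∃ k, K = k + 2 := ⟨K - 2, by omega⟩
  have h3 : (k + 2) * (2 ^ b0) ≤ (k + 2) * p := by
    calc (k + 2) * 2 ^ b0 ≤ (k + 1) * (2 ^ b0 * 2) := by nlinarith [Nat.zero_le (2 ^ b0 * k)]
      _ ≤ (k + 1) * y := Nat.mul_le_mul_left _ hb0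
      _ ≤ (k + 2) * p := h1
  exact Nat.le_of_mul_le_mul_left h3 (by omega)

theorem TB_inj_aux (ps : PS b d K y Pc P) (b0 k : ℕ) (hb0 : 2 ^ (b0 + 1) ≤ y) (h : k ≤ K) {x x' n n' : ℕ}
    (hx : x ∈ XO b0) (hx' : x' ∈ XO b0) (hn : n ∈ PB P 0 k) (hn' : n' ∈ PB P 0 k) (he : x * n = x' * n') :
    x = x' ∧ n = n' := by
  have key : ∀ x' ∈ XO b0, ∀ n ∈ PB P 0 k, Nat.Coprime n x' := by
    intro x' hx' n hn
    refine Nat.Coprime.symm ?_
    by_contra hc
    obtain ⟨r, hr, h1, h2⟩ := Nat.Prime.not_coprime_iff_dvd.1 hc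
    obtain ⟨j, h4, h5, h6⟩ := PB_factor ps k 0 (by omega) n hn r hr h2
    have h7 := prime_big ps b0 hb0 j (by omega) r h6
    simp only [XO, mem_filter, mem_range] at hx'
    have h8 := Nat.le_of_dvd (by omega) h1
    omega
  have h1 : n ∣ n' := by
    have : n ∣ x' * n' := by rw [← he]; exact dvd_mul_left _ _
    exact (key x' hx' n hn).dvd_of_dvd_mul_left this
  have h2 : n' ∣ n := by
    have : n' ∣ x * n := by rw [he]; exact dvd_mul_left _ _
    exact (key x hx n' hn').dvd_of_dvd_mul_left this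
  have h3 := Nat.dvd_antisymm h1 h2
  subst h3
  exact ⟨Nat.eq_of_mul_eq_mul_right (PB_pos ps k 0 (by omega) n hn) he, rfl⟩

/-- here `2^(b0+1) ≤ y`: the primes are larger than `2^b0`. -/
theorem TB_sum {A : Type*} [AddCommMonoid A] (ps : PS b d K y Pc P) (b0 k : ℕ) (hb0 : 2 ^ (b0 + 1) ≤ y) (h : k ≤ K)
    (g : ℕ → A) : ∑ t ∈ TB P b0 k, g t = ∑ x ∈ XO b0, ∑ n ∈ PB P 0 k, g (x * n) :=
  sum_image₂_of_inj _ _ (fun _ hx _ hx' _ hn _ hn' he => TB_inj_aux ps b0 k hb0 h hx hx' hn hn' he) g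

theorem TB_card (ps : PS b d K y Pc P) (b0 k : ℕ) (h1 : 1 ≤ b0) (hb0 : 2 ^ (b0 + 1) ≤ y) (h : k ≤ K) :
    (TB P b0 k).card = 2 ^ (b0 - 1) * Pc ^ k := by
  rw [card_eq_sum_ones, TB_sum ps b0 k hb0 h (fun _ => 1)]
  simp only [sum_const, smul_eq_mul, mul_one]
  rw [PB_card ps 0 k (by omega), XO_card b0 h1]

/-- the splitting used in the bilinear estimate -/
theorem SR_split (ps : PS b d K y Pc P) (b0 k1 k2 k3 : ℕ) (hb0 : 2 ^ (b0 + 1) ≤ y) (h : k1 + k2 + k3 ≤ K) (α : ℝ) :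
    SR (TB P b0 (k1 + k2 + k3)) α =
      ∑ w ∈ PB P (k1 + k2) k3, ∑ u ∈ TB P b0 k1, ∑ v ∈ PB P k1 k2, eR ((α * w) * u * v) := by
  unfold SR
  rw [TB_sum ps b0 _ hb0 h]
  have h1 : ∀ x : ℕ, ∑ n ∈ PB P 0 (k1 + k2 + k3), eR (α * ((x * n : ℕ) : ℝ)) =
      ∑ w ∈ PB P (k1 + k2) k3, ∑ u ∈ PB P 0 k1, ∑ v ∈ PB P k1 k2, eR ((α * w) * ((x * u : ℕ) : ℝ) * v) := by
    intro x
    rw [PB_add ps (k1 + k2) 0 k3 (by omega)]
    rw [PB_add ps k1 0 k2 (by omega)]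
    simp only [zero_add]
    have h2 : ∀ u v w : ℕ, eR (α * ((x * (u * v * w) : ℕ) : ℝ)) = eR ((α * w) * ((x * u : ℕ) : ℝ) * v) := by
      intro u v w
      congr 1
      push_cast
      ring
    simp only [h2]
    rw [sum_congr rfl fun u _ => sum_comm]
    rw [sum_comm]
  rw [sum_congr rfl fun x _ => h1 x, sum_comm]
  refine sum_congr rfl fun w _ => ?_
  rw [TB_sum ps b0 k1 hb0 (by omega)]

theorem PB_odd (ps : PS b d K y Pc P) (hy : 6 ≤ y) (k i : ℕ) (h : i + k ≤ K) (n : ℕ) (hn : n ∈ PB P i k) :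
    n % 2 = 1 := by
  rw [← Nat.not_even_iff, even_iff_two_dvd]
  intro h2
  obtain ⟨j, h4, h5, h6⟩ := PB_factor ps k i h n hn 2 Nat.prime_two h2
  have h7 := prime_big ps 1 (by norm_num; omega) j (by omega) 2 h6
  have h1 := ps.close j (by omega) 2 h6
  have h3 := ps.K2
  obtain ⟨k', rfl⟩ : ∃ k, K = k + 2 := ⟨K - 2, by omega⟩
  have h8 : (k' + 2 - 1) * 6 ≤ (k' + 2) * 2 := (Nat.mul_le_mul_left _ hy).trans h1
  omega

theorem PB_le (ps : PS b d K y Pc P) (k i : ℕ) (h : i + k ≤ K) (n : ℕ) (hn : n ∈ PB P i k) : n ≤ y ^ k := by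
  induction k generalizing i n with
  | zero =>
    simp only [PB, mem_singleton] at hn
    simp [hn]
  | succ k ih =>
    simp only [PB, mem_image₂] at hn
    obtain ⟨p, hp, m, hm, rfl⟩ := hn
    have h1 := ih (i + 1) (by omega) m hm
    have h2 := ps.lt i (by omega) p hp
    rw [pow_succ']
    exact Nat.mul_le_mul h2.le h1

/-- strict for `k ≥ 1` -/
theorem PB_lt (ps : PS b d K y Pc P) (k i : ℕ) (hk : 1 ≤ k) (h : i + k ≤ K) (n : ℕ) (hn : n ∈ PB P i k) :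
    n < y ^ k := by
  obtain ⟨k, rfl⟩ : ∃ k', k = k' + 1 := ⟨k - 1, by omega⟩
  simp only [PB, mem_image₂] at hn
  obtain ⟨p, hp, m, hm, rfl⟩ := hn
  have h1 := PB_le ps k (i + 1) (by omega) m hm
  have h2 := ps.lt i (by omega) p hp
  have h3 := PB_pos ps k (i + 1) (by omega) m hm
  rw [pow_succ']
  calc p * m < y * m := Nat.mul_lt_mul_of_pos_right h2 h3
    _ ≤ y * y ^ k := Nat.mul_le_mul_left _ h1

theorem PB_ge_aux (ps : PS b d K y Pc P) (k i : ℕ) (h : i + k ≤ K) (n : ℕ) (hn : n ∈ PB P i k) :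
    (K - 1) ^ k * y ^ k ≤ K ^ k * n := by
  induction k generalizing i n with
  | zero =>
    simp only [PB, mem_singleton] at hn
    simp [hn]
  | succ k ih =>
    simp only [PB, mem_image₂] at hn
    obtain ⟨p, hp, m, hm, rfl⟩ := hn
    have h1 := ih (i + 1) (by omega) m hm
    have h2 := ps.close i (by omega) p hp
    calc (K - 1) ^ (k + 1) * y ^ (k + 1) = ((K - 1) * y) * ((K - 1) ^ k * y ^ k) := by ring
      _ ≤ (K * p) * (K ^ k * m) := Nat.mul_le_mul h2 h1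
      _ = K ^ (k + 1) * (p * m) := by ring

theorem pow_four (K k : ℕ) (hK : 2 ≤ K) (hk : k ≤ K) : K ^ k ≤ 4 * (K - 1) ^ k := by
  have hK0 : (2 : ℝ) ≤ K := by exact_mod_cast hK
  have hs : (0 : ℝ) < 1 + -(1 / (K : ℝ)) := by
    have : 1 / (K : ℝ) ≤ 1 / 2 := one_div_le_one_div_of_le (by norm_num) hK0
    linarith
  have h1 : (1 : ℝ) / 4 ≤ (1 + -(1 / (K : ℝ))) ^ K := by
    have h2 := one_add_mul_self_le_rpow_one_add (s := -(1 / (K : ℝ))) (by linarith) (p := (K : ℝ) / 2) (by linarith)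
    have h3 : 1 + (K : ℝ) / 2 * -(1 / (K : ℝ)) = 1 / 2 := by
      have : (K : ℝ) ≠ 0 := by positivity
      field_simp
      norm_num
    rw [h3] at h2
    have h4 : (1 + -(1 / (K : ℝ))) ^ K = ((1 + -(1 / (K : ℝ))) ^ ((K : ℝ) / 2)) ^ 2 := by
      rw [← Real.rpow_natCast ((1 + -(1 / (K : ℝ))) ^ ((K : ℝ) / 2)) 2, ← Real.rpow_mul hs.le]
      rw [← Real.rpow_natCast]
      congr 1
      push_cast
      ring
    rw [h4]
    nlinarith
  have h5 : (1 : ℝ) / 4 ≤ (1 + -(1 / (K : ℝ))) ^ k := by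
    refine h1.trans (pow_le_pow_of_le_one hs.le ?_ hk)
    have : 0 ≤ 1 / (K : ℝ) := by positivity
    linarith
  have h6 : ((K - 1 : ℕ) : ℝ) = (K : ℝ) * (1 + -(1 / (K : ℝ))) := by
    rw [Nat.cast_sub (by omega)]
    have : (K : ℝ) ≠ 0 := by positivity
    field_simp
    push_cast
    ring
  have h7 : ((K : ℝ)) ^ k ≤ 4 * ((K - 1 : ℕ) : ℝ) ^ k := by
    rw [h6, mul_pow]
    have : 0 ≤ (K : ℝ) ^ k := by positivity
    nlinarith
  exact_mod_cast h7

theorem PB_ge (ps : PS b d K y Pc P) (k i : ℕ) (h : i + k ≤ K) (n : ℕ) (hn : n ∈ PB P i k) : y ^ k ≤ 4 * n := by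
  have h1 := PB_ge_aux ps k i h n hn
  have h2 := pow_four K k ps.K2 (by omega)
  have h3 : 0 < (K - 1) ^ k := Nat.pow_pos (by have := ps.K2; omega)
  have h4 : (K - 1) ^ k * y ^ k ≤ (K - 1) ^ k * (4 * n) := by
    calc (K - 1) ^ k * y ^ k ≤ K ^ k * n := h1
      _ ≤ (4 * (K - 1) ^ k) * n := Nat.mul_le_mul_right _ h2
      _ = _ := by ring
  exact Nat.le_of_mul_le_mul_left h4 h3

theorem TB_lt (ps : PS b d K y Pc P) (b0 k : ℕ) (h : k ≤ K) (t : ℕ) (ht : t ∈ TB P b0 k) :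
    t < 2 ^ b0 * y ^ k := by
  simp only [TB, mem_image₂] at ht
  obtain ⟨x, hx, n, hn, rfl⟩ := ht
  have h1 := PB_le ps k 0 (by omega) n hn
  have h2 := PB_pos ps k 0 (by omega) n hn
  simp only [XO, mem_filter, mem_range] at hx
  calc x * n < 2 ^ b0 * n := Nat.mul_lt_mul_of_pos_right hx.1 h2
    _ ≤ _ := Nat.mul_le_mul_left _ h1

theorem TB_odd (ps : PS b d K y Pc P) (hy : 6 ≤ y) (b0 k : ℕ) (h : k ≤ K) (t : ℕ) (ht : t ∈ TB P b0 k) :
    t % 2 = 1 := by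
  simp only [TB, mem_image₂] at ht
  obtain ⟨x, hx, n, hn, rfl⟩ := ht
  have h1 := PB_odd ps hy k 0 (by omega) n hn
  simp only [XO, mem_filter, mem_range] at hx
  rw [Nat.mul_mod, hx.2, h1]

theorem PB_list (ps : PS b d K y Pc P) (k i : ℕ) (h : i + k ≤ K) (t : ℕ) (ht : t ∈ PB P i k) :
    ∃ L : List ℕ, L.length = k ∧ (∀ x ∈ L, 1 ≤ x ∧ x < 2 ^ b) ∧ L.prod = t := by
  induction k generalizing i t with
  | zero =>
    simp only [PB, mem_singleton] at ht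
    exact ⟨[], rfl, by simp, by simp [ht]⟩
  | succ k ih =>
    simp only [PB, mem_image₂] at ht
    obtain ⟨p, hp, m, hm, rfl⟩ := ht
    obtain ⟨L, h1, h2, h3⟩ := ih (i + 1) (by omega) m hm
    refine ⟨p :: L, by simp [h1], ?_, by simp [h3]⟩
    intro x hx
    rcases List.mem_cons.1 hx with rfl | hx
    · exact ⟨(ps.prime i (by omega) x hp).pos, (ps.lt i (by omega) x hp).trans_le ps.yb⟩
    · exact h2 x hx

/-- as a list of `k+1` numbers `< 2^b` -/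
theorem TB_list (ps : PS b d K y Pc P) (b0 k : ℕ) (h0 : b0 ≤ b) (h : k ≤ K) (t : ℕ) (ht : t ∈ TB P b0 k) :
    ∃ L : List ℕ, L.length = k + 1 ∧ (∀ x ∈ L, 1 ≤ x ∧ x < 2 ^ b) ∧ L.prod = t := by
  simp only [TB, mem_image₂] at ht
  obtain ⟨x, hx, n, hn, rfl⟩ := ht
  obtain ⟨L, h1, h2, h3⟩ := PB_list ps k 0 (by omega) n hn
  simp only [XO, mem_filter, mem_range] at hx
  refine ⟨x :: L, by simp [h1], ?_, by simp [h3]⟩
  intro z hz
  rcases List.mem_cons.1 hz with rfl | hz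
  · exact ⟨by omega, hx.1.trans_le (Nat.pow_le_pow_right (by norm_num) h0)⟩
  · exact h2 z hz

end HadT3
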