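import Mathlib
import Pool.Agent.Lib_MP_008adc_t3.Defs
import Pool.Agent.Lib_MP_008adc_c3.GcdAv

/-!
# The average of the gcd over products of primes from disjoint sets
-/

set_option autoImplicit false

namespace HadT3

open Finset HadLLL

theorem gcd_prod_bound {b d K y Pc : ℕ} {P : ℕ → Finset ℕ} (ps : PS b d K y Pc P) (q : ℕ) (hq : 0 < q) : ∀ (k i : ℕ), i + k ≤ K →
    ∑ w ∈ PB P i k, Nat.gcd q w ≤ ∏ j ∈ range k, ∑ p ∈ P (i + j), Nat.gcd q p := by
  intro k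
  induction k with
  | zero =>
    intro i _
    simp [PB]
  | succ k ih =>
    intro i hi
    rw [PB_sum ps i k hi, prod_range_succ']
    calc ∑ p ∈ P i, ∑ n ∈ PB P (i + 1) k, Nat.gcd q (p * n)
        ≤ ∑ p ∈ P i, ∑ n ∈ PB P (i + 1) k, Nat.gcd q p * Nat.gcd q n :=
          sum_le_sum fun p _ => sum_le_sum fun n _ =>
            Nat.le_of_dvd (Nat.mul_pos (Nat.gcd_pos_of_pos_left _ hq) (Nat.gcd_pos_of_pos_left _ hq))
              (Nat.gcd_mul_right_dvd_mul_gcd q p n)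
      _ = (∑ p ∈ P i, Nat.gcd q p) * ∑ n ∈ PB P (i + 1) k, Nat.gcd q n := by
          rw [sum_mul_sum]
      _ ≤ (∑ p ∈ P i, Nat.gcd q p) * ∏ j ∈ range k, ∑ p ∈ P (i + 1 + j), Nat.gcd q p :=
          Nat.mul_le_mul_left _ (ih (i + 1) (by omega))
      _ = _ := by
          rw [mul_comm]
          congr 1
          refine prod_congr rfl fun j _ => ?_
          rw [show i + 1 + j = i + (j + 1) by ring]

theorem gcd_avg_aux {b c K y Pc d : ℕ} {P : ℕ → Finset ℕ} (ps : PS b d K y Pc P) (i k : ℕ) (hik : i + k ≤ K)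
    (q : ℕ) (hq : 1 ≤ q) (hc0 : 0 < c) (hcy : 2 ^ (c + 1) ≤ y) :
    ∑ w ∈ PB P i k, (Nat.gcd q w : ℝ) ≤ (Pc : ℝ) ^ k * (q : ℝ) ^ (((d : ℝ) + 1) / c) := by
  have hc : ∀ j : Fin k, ∀ p ∈ P (i + j), 2 ^ c ≤ p := by
    intro j p hp
    have hj := j.2
    exact prime_big ps c hcy (i + j) (by omega) p hp
  have h1 := Pool.Agent.HadNT.sum_gcd_prod_le_rpow (q := q) (b := b) (d := d) (c := c) (by omega)
    hc0 (fun j : Fin k => P (i + j)) (fun j => ps.prime _ (by have := j.2; omega))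
    (fun j j' hjj => ps.disj _ (by have := j.2; omega) _ (by have := j'.2; omega) (fun h => hjj (Fin.ext (by omega))))
    (fun j p hp => ((ps.lt _ (by have := j.2; omega) p hp).le.trans ps.yb))
    (fun j => by rw [ps.card _ (by have := j.2; omega), mul_comm]; exact ps.cd) hc
  have h2 := Pool.Agent.HadNT.sum_gcd_eq q (fun j : Fin k => P (i + j)) (fun j => ps.prime _ (by have := j.2; omega))
    (fun j j' hjj => ps.disj _ (by have := j.2; omega) _ (by have := j'.2; omega) (fun h => hjj (Fin.ext (by omega))))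
  have h3 := gcd_prod_bound ps q hq k i hik
  rw [Finset.prod_range] at h3
  rw [← h2] at h3
  have h4 : ((∑ w ∈ PB P i k, Nat.gcd q w : ℕ) : ℝ) ≤
      ((∑ w ∈ Fintype.piFinset (fun j : Fin k => P (i + j)), Nat.gcd q (∏ j, w j) : ℕ) : ℝ) := by
    exact_mod_cast h3
  push_cast at h4
  have h5 : (∏ j : Fin k, ((P (i + (j : ℕ))).card : ℝ)) = (Pc : ℝ) ^ k := by
    rw [prod_congr rfl (fun j _ => by rw [ps.card _ (by have := j.2; omega)])]
    simp
  rw [h5] at h1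
  refine h4.trans ?_
  push_cast at h1 ⊢
  exact h1

theorem big_y {K y Pc d : ℕ} {P : ℕ → Finset ℕ} (ps : PS (1000 * (d + 1)) d K y Pc P) :
    2 ^ (999 * (d + 1) + 1) ≤ y := by
  have h1 := ps.yd
  have h2 : 2 ^ (1000 * (d + 1)) = 2 ^ d * 2 ^ (999 * d + 1000) := by
    rw [← pow_add, show d + (999 * d + 1000) = 1000 * (d + 1) by omega]
  rw [h2] at h1
  have h3 := Nat.le_of_mul_le_mul_left h1 (Nat.two_pow_pos d)
  exact (Nat.pow_le_pow_right (by norm_num) (by omega)).trans h3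

theorem gcd_avg {K y Pc d : ℕ} {P : ℕ → Finset ℕ} (ps : PS (1000 * (d + 1)) d K y Pc P) (i k : ℕ) (hik : i + k ≤ K)
    (q : ℕ) (hq : 1 ≤ q) :
    ∑ w ∈ PB P i k, (Nat.gcd q w : ℝ) ≤ (Pc : ℝ) ^ k * (q : ℝ) ^ (1 / 999 : ℝ) := by
  have h1 := gcd_avg_aux ps i k hik q hq (c := 999 * (d + 1)) (by omega) (big_y ps)
  have h6 : (((d : ℝ) + 1) / ((999 * (d + 1) : ℕ) : ℝ)) = 1 / 999 := by
    push_cast
    field_simp
  rwa [h6] at h1

end HadT3
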