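import Mathlib
import Pool.Agent.Lib_MP_008adc_t3.Defs
import Pool.Agent.Lib_MP_008adc_t3.GcdPB
import Pool.Agent.Lib_MP_008adc_c3.Master

/-!
# The bilinear estimate for the sum over `T`
-/

set_option autoImplicit false

namespace HadT3

open Finset HadLLL

theorem core_aux {b B K y Pc d : ℕ} {P : ℕ → Finset ℕ} (hB1 : 1 ≤ B) (ps : PS b d K y Pc P) (n : ℕ) (hn : n ≤ K)
    (hby : 2 ^ (B + 1) ≤ y)
    (hgcd : ∀ i k : ℕ, i + k ≤ K → ∀ q : ℕ, 1 ≤ q →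
      ∑ w ∈ PB P i k, (Nat.gcd q w : ℝ) ≤ (Pc : ℝ) ^ k * (q : ℝ) ^ (1 / 999 : ℝ))
    (α β Z : ℝ) (a : ℤ) (q : ℕ) (hq : 1 ≤ q) (hcop : IsCoprime a (q : ℤ)) (hα : α = a / q + β)
    (hZ : Z = q * (1 + |β| * (2 ^ (B) * (y : ℝ) ^ n)))
    (k1 k2 : ℕ) (hk2 : 1 ≤ k2) (hk : k1 + k2 ≤ n)
    (hX1 : 4 * (q * |β| * (2 ^ (B) * (y : ℝ) ^ n)) ≤ 2 ^ (B) * (y : ℝ) ^ k1) :
    ‖SR (TB P (B) n) α‖ ^ 2 ≤ ((TB P (B) n).card : ℝ) ^ 2 *
      ((2 : ℝ) ^ (1 + d * (k1 + k2)) * (q : ℝ) ^ (1 / 999 : ℝ) *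
        (1 / (y : ℝ) ^ k2 + 16 * (1 + Real.log (q * (y : ℝ) ^ k2)) *
          (1 / (2 ^ (B) * (y : ℝ) ^ k1) +
            q / (2 ^ (B) * (y : ℝ) ^ k1 * (y : ℝ) ^ k2) + 4 / Z))) := by
  obtain ⟨k3, rfl⟩ : ∃ k3, n = k1 + k2 + k3 := ⟨n - (k1 + k2), by omega⟩
  have hy0 : 0 < y := lt_of_lt_of_le (by positivity) hby
  have hyR : (0 : ℝ) < y := by exact_mod_cast hy0
  have hy1R : (1 : ℝ) ≤ y := by exact_mod_cast hy0
  have hqR : (0 : ℝ) < q := by exact_mod_cast hq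
  have hq1R : (1 : ℝ) ≤ q := by exact_mod_cast hq
  have hU : ∀ u ∈ TB P B k1, u < 2 ^ B * y ^ k1 := fun u hu => TB_lt ps B k1 (by omega) u hu
  have hV : ∀ v ∈ PB P k1 k2, v < y ^ k2 := fun v hv => PB_lt ps k2 k1 hk2 (by omega) v hv
  have hW : ∀ w ∈ PB P (k1 + k2) k3, 0 < w := fun w hw => PB_pos ps k3 (k1 + k2) (by omega) w hw
  have hN1 : ∀ w ∈ PB P (k1 + k2) k3, (2 ^ B * (y : ℝ) ^ (k1 + k2 + k3)) / 4 ≤
      (w : ℝ) * ((2 ^ B * y ^ k1 : ℕ) : ℝ) * ((y ^ k2 : ℕ) : ℝ) := by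
    intro w hw
    have h1 : ((y ^ k3 : ℕ) : ℝ) ≤ ((4 * w : ℕ) : ℝ) := by
      exact_mod_cast PB_ge ps k3 (k1 + k2) (by omega) w hw
    push_cast at h1 ⊢
    rw [pow_add, pow_add]
    have h2 : 0 ≤ 2 ^ B * ((y : ℝ) ^ k1 * (y : ℝ) ^ k2) := by positivity
    nlinarith
  have hN2 : ∀ w ∈ PB P (k1 + k2) k3, (w : ℝ) * ((2 ^ B * y ^ k1 : ℕ) : ℝ) * ((y ^ k2 : ℕ) : ℝ) ≤
      2 ^ B * (y : ℝ) ^ (k1 + k2 + k3) := by
    intro w hw
    have h1 : (w : ℝ) ≤ ((y ^ k3 : ℕ) : ℝ) := by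
      exact_mod_cast PB_le ps k3 (k1 + k2) (by omega) w hw
    push_cast at h1 ⊢
    rw [pow_add, pow_add]
    have h2 : 0 ≤ 2 ^ B * ((y : ℝ) ^ k1 * (y : ℝ) ^ k2) := by positivity
    nlinarith
  have hm := Pool.Agent.HadNT.master1 (α := α) (β := β) (a := a) (q := q) hq hcop hα hU hV hW hN1 hN2
    (by push_cast; exact hX1) (by positivity) (by positivity)
  rw [← SR_split ps B k1 k2 k3 hby (by omega) α, ← hZ] at hm
  have hg := hgcd (k1 + k2) k3 (by omega) q hq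
  have hcW : ((PB P (k1 + k2) k3).card : ℝ) = (Pc : ℝ) ^ k3 := by
    exact_mod_cast PB_card ps (k1 + k2) k3 (by omega)
  have hcV : ((PB P k1 k2).card : ℝ) = (Pc : ℝ) ^ k2 := by
    exact_mod_cast PB_card ps k1 k2 (by omega)
  have hcU : ((TB P B k1).card : ℝ) = 2 ^ (B - 1) * (Pc : ℝ) ^ k1 := by
    exact_mod_cast TB_card ps B k1 hB1 hby (by omega)
  have hcT : ((TB P B (k1 + k2 + k3)).card : ℝ) = 2 ^ (B - 1) * (Pc : ℝ) ^ (k1 + k2 + k3) := by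
    exact_mod_cast TB_card ps B _ hB1 hby (by omega)
  rw [hcW, hcV, hcU] at hm
  rw [hcT]
  refine hm.trans ?_
  set G := (q : ℝ) ^ (1 / 999 : ℝ) with hG
  have hG1 : 1 ≤ G := Real.one_le_rpow hq1R (by norm_num)
  have hZ0 : 0 < Z := by
    rw [hZ]
    positivity
  set X1 : ℝ := 2 ^ B * (y : ℝ) ^ k1 with hX1d
  set X2 : ℝ := (y : ℝ) ^ k2 with hX2d
  have hX10 : 0 < X1 := by positivity
  have hX20 : 0 < X2 := by positivity
  have hX21 : 1 ≤ X2 := one_le_pow₀ hy1R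
  have hlogq : 0 ≤ Real.log q := Real.log_nonneg hq1R
  have hlogX : 0 ≤ Real.log X2 := Real.log_nonneg hX21
  have hlog : Real.log (q * X2) = Real.log q + Real.log X2 := Real.log_mul hqR.ne' hX20.ne'
  push_cast
  rw [← hX1d, ← hX2d]
  -- size of `X1 X2`
  have hsize : X1 * X2 ≤ 2 ^ (1 + d * (k1 + k2)) * (2 ^ (B - 1) * (Pc : ℝ) ^ k1 * (Pc : ℝ) ^ k2) := by
    have h1 : (y : ℝ) ≤ 2 ^ d * (Pc : ℝ) := by
      have := ps.yb.trans ps.cd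
      exact_mod_cast this
    have h2 : (y : ℝ) ^ (k1 + k2) ≤ (2 ^ d * (Pc : ℝ)) ^ (k1 + k2) := by gcongr
    have h3 : (2 : ℝ) ^ B = 2 * 2 ^ (B - 1) := by
      rw [← pow_succ']
      congr 1
      omega
    calc X1 * X2 = 2 ^ B * (y : ℝ) ^ (k1 + k2) := by rw [hX1d, hX2d, pow_add]; ring
      _ ≤ 2 ^ B * (2 ^ d * (Pc : ℝ)) ^ (k1 + k2) := by gcongr
      _ = _ := by
        rw [h3, mul_pow, ← pow_mul, pow_add (Pc : ℝ), pow_add (2 : ℝ) 1]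
        ring
  set E : ℝ := 1 / X2 + 16 * (1 + Real.log (q * X2)) * (1 / X1 + q / (X1 * X2) + 4 / Z) with hE
  have hE0 : 0 ≤ E := by
    rw [hE, hlog]
    positivity
  have hG0 : 0 ≤ G := le_trans (by norm_num) hG1
  have key : ∀ A C E' : ℝ, 0 ≤ A → A + C ≤ E' → A + G * C ≤ G * E' := by
    intro A C E' hA hAC
    have h1 := mul_le_mul_of_nonneg_left hAC hG0
    have h13 := le_mul_of_one_le_left hA hG1
    rw [mul_add] at h1
    linarith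
  have hmain : X1 + 8 / 3 * (X2 + q) * (1 + Real.log q) + 16 * (1 + Real.log X2) * (X1 * X2 / Z) * G ≤
      (X1 * X2) * (G * E) := by
    have h1 : X1 = (X1 * X2) * (1 / X2) := by field_simp
    have h2 : 8 / 3 * (X2 + q) * (1 + Real.log q) =
        (X1 * X2) * (8 / 3 * (1 + Real.log q) * (1 / X1 + q / (X1 * X2))) := by
      field_simp
    have h3 : 16 * (1 + Real.log X2) * (X1 * X2 / Z) * G = (X1 * X2) * (G * (16 * (1 + Real.log X2) * (1 / Z))) := by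
      field_simp
    have h4 : 1 / X2 + 8 / 3 * (1 + Real.log q) * (1 / X1 + q / (X1 * X2)) + G * (16 * (1 + Real.log X2) * (1 / Z)) ≤ G * E := by
      have h5 : 1 / X2 + 8 / 3 * (1 + Real.log q) * (1 / X1 + q / (X1 * X2)) + 16 * (1 + Real.log X2) * (1 / Z) ≤ E := by
        rw [hE, hlog]
        have h6 : 0 ≤ 1 / X1 + q / (X1 * X2) := by positivity
        have h7 : 0 ≤ 1 / Z := by positivity
        have h8 : 4 / Z = 4 * (1 / Z) := by ring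
        rw [h8]
        have h9 : 8 / 3 * (1 + Real.log q) * (1 / X1 + q / (X1 * X2)) ≤
            16 * (1 + (Real.log q + Real.log X2)) * (1 / X1 + q / (X1 * X2)) := by
          apply mul_le_mul_of_nonneg_right _ h6
          linarith
        have h10 : 16 * (1 + Real.log X2) * (1 / Z) ≤ 16 * (1 + (Real.log q + Real.log X2)) * (4 * (1 / Z)) := by
          have : 16 * (1 + (Real.log q + Real.log X2)) * (4 * (1 / Z)) = (64 * (1 + (Real.log q + Real.log X2))) * (1 / Z) := by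
            ring
          rw [this]
          apply mul_le_mul_of_nonneg_right _ h7
          linarith
        linarith
      have h11 : 0 ≤ 1 / X2 + 8 / 3 * (1 + Real.log q) * (1 / X1 + q / (X1 * X2)) := by positivity
      exact key _ _ _ h11 h5
    calc X1 + 8 / 3 * (X2 + q) * (1 + Real.log q) + 16 * (1 + Real.log X2) * (X1 * X2 / Z) * G
        = (X1 * X2) * (1 / X2 + 8 / 3 * (1 + Real.log q) * (1 / X1 + q / (X1 * X2)) + G * (16 * (1 + Real.log X2) * (1 / Z))) := by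
          rw [h2, h3]
          nth_rewrite 1 [h1]
          ring
      _ ≤ _ := mul_le_mul_of_nonneg_left h4 (by positivity)
  have hPc : (0 : ℝ) ≤ Pc := Nat.cast_nonneg _
  calc (Pc : ℝ) ^ k3 * (2 ^ (B - 1) * (Pc : ℝ) ^ k1) * (Pc : ℝ) ^ k2 *
        ((Pc : ℝ) ^ k3 * (X1 + 8 / 3 * (X2 + q) * (1 + Real.log q)) +
          16 * (1 + Real.log X2) * (X1 * X2 / Z) * ∑ w ∈ PB P (k1 + k2) k3, (Nat.gcd q w : ℝ))
      ≤ (Pc : ℝ) ^ k3 * (2 ^ (B - 1) * (Pc : ℝ) ^ k1) * (Pc : ℝ) ^ k2 *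
        ((Pc : ℝ) ^ k3 * (X1 + 8 / 3 * (X2 + q) * (1 + Real.log q)) +
          16 * (1 + Real.log X2) * (X1 * X2 / Z) * ((Pc : ℝ) ^ k3 * G)) := by
        gcongr
    _ = ((Pc : ℝ) ^ k3) ^ 2 * (2 ^ (B - 1) * (Pc : ℝ) ^ k1 * (Pc : ℝ) ^ k2) *
        (X1 + 8 / 3 * (X2 + q) * (1 + Real.log q) + 16 * (1 + Real.log X2) * (X1 * X2 / Z) * G) := by ring
    _ ≤ ((Pc : ℝ) ^ k3) ^ 2 * (2 ^ (B - 1) * (Pc : ℝ) ^ k1 * (Pc : ℝ) ^ k2) *
        ((2 ^ (1 + d * (k1 + k2)) * (2 ^ (B - 1) * (Pc : ℝ) ^ k1 * (Pc : ℝ) ^ k2)) * (G * E)) := by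
        apply mul_le_mul_of_nonneg_left _ (by positivity)
        refine hmain.trans ?_
        apply mul_le_mul_of_nonneg_right hsize
        positivity
    _ = _ := by
        rw [pow_add (Pc : ℝ), pow_add (Pc : ℝ)]
        ring

theorem core {K y Pc d : ℕ} {P : ℕ → Finset ℕ} (_hd : 40 ≤ d) (ps : PS (1000 * (d + 1)) d K y Pc P) (n : ℕ) (hn : n ≤ K)
    (α β Z : ℝ) (a : ℤ) (q : ℕ) (hq : 1 ≤ q) (hcop : IsCoprime a (q : ℤ)) (hα : α = a / q + β)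
    (hZ : Z = q * (1 + |β| * (2 ^ (500 * (d + 1)) * (y : ℝ) ^ n)))
    (k1 k2 : ℕ) (hk2 : 1 ≤ k2) (hk : k1 + k2 ≤ n)
    (hX1 : 4 * (q * |β| * (2 ^ (500 * (d + 1)) * (y : ℝ) ^ n)) ≤ 2 ^ (500 * (d + 1)) * (y : ℝ) ^ k1) :
    ‖SR (TB P (500 * (d + 1)) n) α‖ ^ 2 ≤ ((TB P (500 * (d + 1)) n).card : ℝ) ^ 2 *
      ((2 : ℝ) ^ (1 + d * (k1 + k2)) * (q : ℝ) ^ (1 / 999 : ℝ) *
        (1 / (y : ℝ) ^ k2 + 16 * (1 + Real.log (q * (y : ℝ) ^ k2)) *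
          (1 / (2 ^ (500 * (d + 1)) * (y : ℝ) ^ k1) +
            q / (2 ^ (500 * (d + 1)) * (y : ℝ) ^ k1 * (y : ℝ) ^ k2) + 4 / Z))) :=
  core_aux (B := 500 * (d + 1)) (by omega) ps n hn
    ((Nat.pow_le_pow_right (by norm_num) (by omega)).trans (big_y ps))
    (fun i k hik q hq => gcd_avg ps i k hik q hq) α β Z a q hq hcop hα hZ k1 k2 hk2 hk hX1

end HadT3
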