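import Mathlib
import Pool.Agent.Lib_MP_008adc_c3.Dir

/-! PIECE DI: Dirichlet approximation of `h / 2 ^ R`. -/

set_option autoImplicit false

namespace HadT3

theorem dir_approx (R h Q : ℕ) (hh : h < 2 ^ R) (hQ : 1 ≤ Q) : ∃ (a : ℤ) (q : ℕ), 1 ≤ q ∧ q ≤ Q ∧ IsCoprime a (q : ℤ) ∧
    0 ≤ a ∧ a ≤ q ∧ |(h : ℝ) / 2 ^ R - a / q| * q * Q ≤ 1 := by
  obtain ⟨a, q, h1, h2, h3, h4, h5⟩ := HadNT.dir_two_pow R h Q hh hQ
  refine ⟨(a : ℤ), q, h1, h2, Nat.isCoprime_iff_coprime.mpr h3, by positivity, by exact_mod_cast h4, ?_⟩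
  rw [Int.cast_natCast]
  exact h5

end HadT3
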