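import Mathlib

/-!
# Piece N5: parameters in the middle range
-/

set_option autoImplicit false

namespace HadT3

open Finset

/-- PIECE N5 (file Num5.lean, import Mathlib only): parameters in the middle range. -/
theorem num5 (d y n M q : ℕ) (β Z : ℝ) (hd : 40 ≤ d) (hy1 : y ≤ 2 ^ (1000 * (d + 1)))
    (hy2 : 2 ^ (1000 * (d + 1)) ≤ 2 ^ d * y)
    (hM1 : 2 ^ M ≤ 2 ^ (500 * (d + 1)) * y ^ n) (hM : 900 * (1000 * (d + 1)) ≤ M)
    (hlog : 140 * (M + 2) ≤ 2 ^ (50 * (d + 1))) (hq : 1 ≤ q)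
    (hZ : Z = q * (1 + |β| * (2 ^ (500 * (d + 1)) * (y : ℝ) ^ n)))
    (h1 : (2 : ℝ) ^ (125 * (d + 1)) ≤ Z) (h2 : Z ≤ 2 ^ (M / 5)) :
    ∃ k1 k2 : ℕ, 1 ≤ k2 ∧ k1 + k2 ≤ n ∧
      4 * (q * |β| * (2 ^ (500 * (d + 1)) * (y : ℝ) ^ n)) ≤ 2 ^ (500 * (d + 1)) * (y : ℝ) ^ k1 ∧
      (2 : ℝ) ^ (1 + d * (k1 + k2)) * (q : ℝ) ^ (1 / 999 : ℝ) *
        (1 / (y : ℝ) ^ k2 + 16 * (1 + Real.log (q * (y : ℝ) ^ k2)) *
          (1 / (2 ^ (500 * (d + 1)) * (y : ℝ) ^ k1) +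
            q / (2 ^ (500 * (d + 1)) * (y : ℝ) ^ k1 * (y : ℝ) ^ k2) + 4 / Z)) ≤ Z ^ (-(1 / 2) : ℝ) := by
  generalize ha10 : 1000 * (d + 1) = a10 at hy1 hy2 hM
  generalize ha5 : 500 * (d + 1) = a5 at hM1 hZ ⊢
  generalize ha1 : 125 * (d + 1) = a1 at h1
  generalize ha0 : 50 * (d + 1) = a0 at hlog
  obtain ⟨a9, ha9⟩ : ∃ a9, a9 = 999 * (d + 1) := ⟨_, rfl⟩
  have hyn : 2 ^ a9 ≤ y := by
    have e1 : 2 ^ a10 = 2 ^ d * 2 ^ (a10 - d) := by
      rw [← pow_add]; congr 1; omega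
    rw [e1] at hy2
    have h3 : 2 ^ (a10 - d) ≤ y := Nat.le_of_mul_le_mul_left hy2 (by positivity)
    exact le_trans (Nat.pow_le_pow_right (by norm_num) (by omega)) h3
  have hyR : (2 : ℝ) ^ a9 ≤ y := by exact_mod_cast hyn
  have hyR1 : (y : ℝ) ≤ 2 ^ a10 := by exact_mod_cast hy1
  have hy2' : (2 : ℝ) ≤ y := by
    refine le_trans ?_ hyR
    calc (2 : ℝ) = 2 ^ 1 := by norm_num
      _ ≤ 2 ^ a9 := pow_le_pow_right₀ (by norm_num) (by omega)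
  have hy0 : (0 : ℝ) < y := by linarith
  have hM1R : (2 : ℝ) ^ M ≤ 2 ^ a5 * (y : ℝ) ^ n := by exact_mod_cast hM1
  have hqR : (1 : ℝ) ≤ q := by exact_mod_cast hq
  have hN0 : (0 : ℝ) ≤ |β| * (2 ^ a5 * (y : ℝ) ^ n) := by positivity
  have hZ4 : (4 : ℝ) ≤ Z := by
    refine le_trans ?_ h1
    calc (4 : ℝ) = 2 ^ 2 := by norm_num
      _ ≤ 2 ^ a1 := pow_le_pow_right₀ (by norm_num) (by omega)
  have hZ0 : (0 : ℝ) < Z := by linarith
  have hqZ : (q : ℝ) ≤ Z := by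
    rw [hZ]
    nlinarith
  have hbZ : (q : ℝ) * |β| * (2 ^ a5 * (y : ℝ) ^ n) ≤ Z := by
    rw [hZ]
    nlinarith
  have hex : ∃ k : ℕ, 4 * Z ≤ (y : ℝ) ^ k := by
    obtain ⟨k, hk⟩ := pow_unbounded_of_one_lt (4 * Z) (show (1 : ℝ) < y by linarith)
    exact ⟨k, hk.le⟩
  classical
  obtain ⟨m, hm1, hm2⟩ : ∃ m : ℕ, 4 * Z ≤ (y : ℝ) ^ (m + 1) ∧ (y : ℝ) ^ m < 4 * Z := by
    have hf := Nat.find_spec hex
    have hne : Nat.find hex ≠ 0 := by
      intro h0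
      rw [h0, pow_zero] at hf
      linarith
    obtain ⟨m, hm⟩ := Nat.exists_eq_succ_of_ne_zero hne
    refine ⟨m, ?_, ?_⟩
    · have h3 := hf
      rw [hm] at h3
      exact h3
    · have h3 := Nat.find_min hex (m := m) (by omega)
      push Not at h3
      exact h3
  -- sizes
  have hp500 : (1 : ℝ) ≤ 2 ^ a5 := one_le_pow₀ (by norm_num)
  have hX0 : (0 : ℝ) < (y : ℝ) ^ (m + 1) := by positivity
  have hXup : (y : ℝ) ^ (m + 1) ≤ 4 * Z * y := by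
    rw [pow_succ]
    exact mul_le_mul_of_nonneg_right hm2.le hy0.le
  have hkn : (m + 1) + (m + 1) ≤ n := by
    by_contra hcon
    push Not at hcon
    have h3 : (y : ℝ) ^ n ≤ (y : ℝ) ^ (m + m + 1) := pow_le_pow_right₀ (by linarith) (by omega)
    have h4 : (y : ℝ) ^ (m + m + 1) ≤ 4 * Z * (4 * Z) * y := by
      rw [pow_succ, pow_add]
      have h5 : (0 : ℝ) ≤ (y : ℝ) ^ m := by positivity
      exact mul_le_mul_of_nonneg_right (mul_le_mul hm2.le hm2.le h5 (by linarith)) hy0.le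
    have h5 : 4 * Z * (4 * Z) * y ≤ 2 ^ (4 + 2 * (M / 5) + a10) := by
      have h6 : 4 * Z * (4 * Z) * y ≤ 4 * 2 ^ (M / 5) * (4 * 2 ^ (M / 5)) * 2 ^ a10 := by
        have h7 : 4 * Z ≤ 4 * 2 ^ (M / 5) := by linarith
        exact mul_le_mul (mul_le_mul h7 h7 (by linarith) (by positivity)) hyR1 hy0.le (by positivity)
      refine h6.trans (le_of_eq ?_)
      rw [pow_add, pow_add, two_mul, pow_add]
      ring
    have h6 : (2 : ℝ) ^ M ≤ 2 ^ (a5 + (4 + 2 * (M / 5) + a10)) := by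
      rw [pow_add]
      exact hM1R.trans (mul_le_mul_of_nonneg_left (h3.trans (h4.trans h5)) (by positivity))
    have h7 := (pow_le_pow_iff_right₀ (by norm_num : (1 : ℝ) < 2)).1 h6
    omega
  refine ⟨m + 1, m + 1, by omega, hkn, ?_, ?_⟩
  · calc 4 * (q * |β| * (2 ^ a5 * (y : ℝ) ^ n)) ≤ 4 * Z := by linarith
      _ ≤ (y : ℝ) ^ (m + 1) := hm1
      _ = 1 * (y : ℝ) ^ (m + 1) := (one_mul _).symm
      _ ≤ 2 ^ a5 * (y : ℝ) ^ (m + 1) := mul_le_mul_of_nonneg_right hp500 hX0.le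
  -- the logarithm
  have hqX : (q : ℝ) * (y : ℝ) ^ (m + 1) ≤ 2 ^ M := by
    calc (q : ℝ) * (y : ℝ) ^ (m + 1) ≤ Z * (4 * Z * y) := mul_le_mul hqZ hXup hX0.le hZ0.le
      _ ≤ 2 ^ (M / 5) * (4 * 2 ^ (M / 5) * 2 ^ a10) := by
          have h7 : 4 * Z ≤ 4 * 2 ^ (M / 5) := by linarith
          exact mul_le_mul h2 (mul_le_mul h7 hyR1 hy0.le (by positivity)) (by positivity) (by positivity)
      _ = 2 ^ (2 + 2 * (M / 5) + a10) := by
          rw [pow_add, pow_add, two_mul, pow_add]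
          ring
      _ ≤ 2 ^ M := pow_le_pow_right₀ (by norm_num) (by omega)
  have hlogX : Real.log (q * (y : ℝ) ^ (m + 1)) ≤ M := by
    have h3 := Real.log_le_log (by positivity) hqX
    rw [Real.log_pow] at h3
    have h4 : Real.log 2 ≤ 1 := by
      have := Real.log_two_lt_d9
      linarith
    have h5 : (0 : ℝ) ≤ M := Nat.cast_nonneg _
    nlinarith
  have hlogX0 : 0 ≤ Real.log (q * (y : ℝ) ^ (m + 1)) := by
    apply Real.log_nonneg
    have h3 : (1 : ℝ) ≤ (y : ℝ) ^ (m + 1) := one_le_pow₀ (by linarith)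
    nlinarith
  -- the bracket
  have hB : 1 / (2 ^ a5 * (y : ℝ) ^ (m + 1)) +
      q / (2 ^ a5 * (y : ℝ) ^ (m + 1) * (y : ℝ) ^ (m + 1)) + 4 / Z ≤ 5 / Z := by
    have h3 : 1 / (2 ^ a5 * (y : ℝ) ^ (m + 1)) ≤ 1 / (4 * Z) := by
      apply one_div_le_one_div_of_le (by linarith)
      nlinarith
    have h4 : q / (2 ^ a5 * (y : ℝ) ^ (m + 1) * (y : ℝ) ^ (m + 1)) ≤ Z / (4 * Z * (4 * Z)) := by
      apply div_le_div₀ hZ0.le hqZ (by positivity)
      have h5 : 4 * Z ≤ 2 ^ a5 * (y : ℝ) ^ (m + 1) := by nlinarith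
      exact mul_le_mul h5 hm1 (by linarith) (by positivity)
    have h5 : Z / (4 * Z * (4 * Z)) = (1 / 16) / Z := by field_simp; ring
    have h6 : 1 / (4 * Z) = (1 / 4) / Z := by field_simp
    rw [h5] at h4
    rw [h6] at h3
    have h7 : (1 / 4) / Z + (1 / 16) / Z + 4 / Z ≤ 5 / Z := by
      rw [← add_div, ← add_div]
      apply div_le_div_of_nonneg_right _ hZ0.le
      norm_num
    linarith
  have hB0 : 0 ≤ 1 / (2 ^ a5 * (y : ℝ) ^ (m + 1)) +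
      q / (2 ^ a5 * (y : ℝ) ^ (m + 1) * (y : ℝ) ^ (m + 1)) + 4 / Z := by positivity
  have hlogR : (140 : ℝ) * (M + 2) ≤ 2 ^ a0 := by exact_mod_cast hlog
  have hM0 : (0 : ℝ) ≤ M := Nat.cast_nonneg _
  have hS : 1 / (y : ℝ) ^ (m + 1) + 16 * (1 + Real.log (q * (y : ℝ) ^ (m + 1))) *
          (1 / (2 ^ a5 * (y : ℝ) ^ (m + 1)) +
            q / (2 ^ a5 * (y : ℝ) ^ (m + 1) * (y : ℝ) ^ (m + 1)) + 4 / Z) ≤
        2 ^ a0 / Z := by
    have h3 : 1 / (y : ℝ) ^ (m + 1) ≤ (1 / 4) / Z := by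
      have h6 : (1 / 4) / Z = 1 / (4 * Z) := by field_simp
      rw [h6]
      exact one_div_le_one_div_of_le (by linarith) hm1
    have h4 : 16 * (1 + Real.log (q * (y : ℝ) ^ (m + 1))) *
          (1 / (2 ^ a5 * (y : ℝ) ^ (m + 1)) +
            q / (2 ^ a5 * (y : ℝ) ^ (m + 1) * (y : ℝ) ^ (m + 1)) + 4 / Z) ≤
          16 * (M + 2) * (5 / Z) :=
      mul_le_mul (by linarith) hB hB0 (by positivity)
    have h5 : (1 / 4) / Z + 16 * (M + 2) * (5 / Z) = (1 / 4 + 80 * (M + 2)) / Z := by ring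
    have h6 : (1 / 4 + 80 * ((M : ℝ) + 2)) / Z ≤ 2 ^ a0 / Z :=
      div_le_div_of_nonneg_right (by linarith) hZ0.le
    linarith
  -- logarithmic scale
  set L := Real.logb 2 Z with hL
  have hZL : Z = (2 : ℝ) ^ L := (Real.rpow_logb (by norm_num) (by norm_num) hZ0).symm
  have hLD : 125 * ((d : ℝ) + 1) ≤ L := by
    rw [hL, Real.le_logb_iff_rpow_le (by norm_num) hZ0]
    refine le_trans (le_of_eq ?_) h1
    rw [← Real.rpow_natCast, ← ha1]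
    congr 1
    push_cast
    ring
  have hmD : 999 * ((d : ℝ) + 1) * m ≤ 2 + L := by
    have h3 : ((2 : ℝ) ^ a9) ^ m ≤ (y : ℝ) ^ m := pow_le_pow_left₀ (by positivity) hyR m
    have h4 : (2 : ℝ) ^ (999 * ((d : ℝ) + 1) * m) < (2 : ℝ) ^ (2 + L) := by
      have e1 : (2 : ℝ) ^ (999 * ((d : ℝ) + 1) * m) = ((2 : ℝ) ^ a9) ^ m := by
        rw [← pow_mul, ← Real.rpow_natCast, ha9]
        congr 1
        push_cast
        ring
      have e2 : (2 : ℝ) ^ (2 + L) = 4 * Z := by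
        rw [Real.rpow_add (by norm_num), ← hZL]
        norm_num
      rw [e1, e2]
      exact lt_of_le_of_lt h3 hm2
    exact ((Real.rpow_lt_rpow_left_iff (by norm_num : (1 : ℝ) < 2)).1 h4).le
  have hqr : (q : ℝ) ^ (1 / 999 : ℝ) ≤ (2 : ℝ) ^ (L / 999) := by
    calc (q : ℝ) ^ (1 / 999 : ℝ) ≤ Z ^ (1 / 999 : ℝ) :=
          Real.rpow_le_rpow (by linarith) hqZ (by norm_num)
      _ = (2 : ℝ) ^ (L / 999) := by
          rw [hZL, ← Real.rpow_mul (by norm_num)]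
          congr 1
          ring
  have hdR : (40 : ℝ) ≤ d := by exact_mod_cast hd
  have hmR : (0 : ℝ) ≤ m := Nat.cast_nonneg _
  calc (2 : ℝ) ^ (1 + d * (m + 1 + (m + 1))) * (q : ℝ) ^ (1 / 999 : ℝ) * _
      ≤ (2 : ℝ) ^ (1 + d * (m + 1 + (m + 1))) * (2 : ℝ) ^ (L / 999) * (2 ^ a0 / Z) := by
        apply mul_le_mul _ hS (by positivity) (by positivity)
        exact mul_le_mul_of_nonneg_left hqr (by positivity)
    _ = (2 : ℝ) ^ ((1 + (d : ℝ) * (m + 1 + (m + 1))) + L / 999 + (50 * ((d : ℝ) + 1) - L)) := by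
        rw [Real.rpow_add (by norm_num), Real.rpow_add (by norm_num), Real.rpow_sub (by norm_num), ← hZL]
        have e1 : (2 : ℝ) ^ (1 + d * (m + 1 + (m + 1))) = (2 : ℝ) ^ (1 + (d : ℝ) * (m + 1 + (m + 1))) := by
          rw [← Real.rpow_natCast]
          congr 1
          push_cast
          ring
        have e2 : (2 : ℝ) ^ a0 = (2 : ℝ) ^ (50 * ((d : ℝ) + 1)) := by
          rw [← Real.rpow_natCast, ← ha0]
          congr 1
          push_cast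
          ring
        rw [e1, e2]
    _ ≤ (2 : ℝ) ^ (L * (-(1 / 2))) := by
        apply Real.rpow_le_rpow_of_exponent_le (by norm_num)
        nlinarith
    _ = Z ^ (-(1 / 2) : ℝ) := by
        rw [hZL, ← Real.rpow_mul (by norm_num)]

end HadT3
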