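import Mathlib

/-!
# Piece N6: parameters in the range of large `Z`
-/

set_option autoImplicit false

namespace HadT3

open Finset

theorem n6_big {M : ℕ} (hM : 36900000 ≤ M) : 97 + 192 * (M : ℝ) ≤ 2 ^ (M / 1000) := by
  obtain ⟨N, r, hN, hr⟩ : ∃ N r, M = 1000 * N + r ∧ r < 1000 :=
    ⟨M / 1000, M % 1000, (Nat.div_add_mod M 1000).symm, Nat.mod_lt _ (by norm_num)⟩
  have hN2 : M / 1000 = N := by omega
  rw [hN2]
  have h1 : N - 20 < 2 ^ (N - 20) := Nat.lt_two_pow_self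
  have h2 : 2 ^ N = 2 ^ 20 * 2 ^ (N - 20) := by
    rw [← pow_add]
    congr 1
    omega
  have h3 : 97 + 192 * M ≤ 2 ^ N := by
    rw [h2]
    norm_num
    omega
  exact_mod_cast h3

/-- the same with names for the exponents -/
theorem num6_aux (d y n M q b b0 : ℕ) (hb : b = 1000 * (d + 1)) (hb0 : b0 = 500 * (d + 1)) (β Z : ℝ) (hd : 40 ≤ d) (hy1 : y ≤ 2 ^ b)
    (hy2 : 2 ^ b ≤ 2 ^ d * y)
    (hM1 : 2 ^ M ≤ 2 ^ b0 * y ^ n) (hM2 : 2 ^ b0 * y ^ n < 2 ^ (M + 1))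
    (hM : 900 * b ≤ M) (hq : 1 ≤ q) (hq2 : q ≤ 2 ^ (3 * (M / 5)))
    (hβ : |β| * q * 2 ^ (3 * (M / 5)) ≤ 1)
    (hZ : Z = q * (1 + |β| * (2 ^ b0 * (y : ℝ) ^ n)))
    (h2 : 2 ^ (M / 5) < Z) :
    ∃ k1 k2 : ℕ, 1 ≤ k2 ∧ k1 + k2 ≤ n ∧
      4 * (q * |β| * (2 ^ b0 * (y : ℝ) ^ n)) ≤ 2 ^ b0 * (y : ℝ) ^ k1 ∧
      (2 : ℝ) ^ (1 + d * (k1 + k2)) * (q : ℝ) ^ (1 / 999 : ℝ) *
        (1 / (y : ℝ) ^ k2 + 16 * (1 + Real.log (q * (y : ℝ) ^ k2)) *
          (1 / (2 ^ b0 * (y : ℝ) ^ k1) +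
            q / (2 ^ b0 * (y : ℝ) ^ k1 * (y : ℝ) ^ k2) + 4 / Z)) ≤ (2 : ℝ) ^ (-(M : ℝ) / 6) := by
  obtain ⟨m, hm, hm1, hm2⟩ : ∃ m, M / 5 = m ∧ 5 * m ≤ M ∧ M ≤ 5 * m + 4 := ⟨M / 5, rfl, by omega, by omega⟩
  rw [hm] at hq2 hβ h2
  -- size of y
  have hy3 : 2 ^ (999 * d + 1000) ≤ y := by
    have h : 2 ^ d * 2 ^ (999 * d + 1000) ≤ 2 ^ d * y := by
      have e : d + (999 * d + 1000) = b := by omega
      rw [← pow_add, e]
      exact hy2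
    exact Nat.le_of_mul_le_mul_left h (by positivity)
  have hy0 : 1 ≤ y := le_trans Nat.one_le_two_pow hy3
  -- bounds for n
  have hn1 : (999 * d + 1000) * n + b0 ≤ M := by
    have h : 2 ^ (b0 + (999 * d + 1000) * n) < 2 ^ (M + 1) := by
      refine lt_of_le_of_lt ?_ hM2
      rw [pow_add, pow_mul]
      exact Nat.mul_le_mul_left _ (Nat.pow_le_pow_left hy3 n)
    have := (Nat.pow_lt_pow_iff_right (by norm_num : 1 < 2)).1 h
    omega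
  have hn2 : M ≤ b0 + b * n := by
    have h : 2 ^ M ≤ 2 ^ (b0 + b * n) := by
      refine hM1.trans ?_
      rw [pow_add, pow_mul 2 b n]
      exact Nat.mul_le_mul_left _ (Nat.pow_le_pow_left hy1 n)
    exact (Nat.pow_le_pow_iff_right (by norm_num : 1 < 2)).1 h
  have hn3 : 2 ≤ n := by
    by_contra h
    have h1 : n ≤ 1 := by omega
    have h3 : b * n ≤ b * 1 := Nat.mul_le_mul_left _ h1
    omega
  obtain ⟨k, hk⟩ : ∃ k, n / 2 = k := ⟨_, rfl⟩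
  have hk1 : 2 * k ≤ n := by omega
  have hk2 : n ≤ 2 * k + 1 := by omega
  have hk3 : 1 ≤ k := by omega
  -- size of y ^ k
  have hyk : 2 ^ (2 * m) ≤ y ^ k := by
    by_contra h
    push Not at h
    have h3 : 2 ^ M < 2 ^ b0 * ((2 ^ (2 * m)) ^ 2 * 2 ^ b) := by
      calc 2 ^ M ≤ 2 ^ b0 * y ^ n := hM1
        _ ≤ 2 ^ b0 * y ^ (2 * k + 1) :=
            Nat.mul_le_mul_left _ (Nat.pow_le_pow_right hy0 hk2)
        _ = 2 ^ b0 * ((y ^ k) ^ 2 * y) := by rw [pow_succ, mul_comm 2 k, pow_mul]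
        _ < 2 ^ b0 * ((2 ^ (2 * m)) ^ 2 * 2 ^ b) := by
            refine Nat.mul_lt_mul_of_pos_left ?_ (by positivity)
            refine Nat.mul_lt_mul_of_lt_of_le ?_ hy1 (by omega)
            exact Nat.pow_lt_pow_left h (by norm_num)
    rw [← pow_mul, ← pow_add, ← pow_add] at h3
    have := (Nat.pow_lt_pow_iff_right (by norm_num : 1 < 2)).1 h3
    omega
  have hykR : (2 : ℝ) ^ (2 * m) ≤ (y : ℝ) ^ k := by exact_mod_cast hyk
  have hNR : 2 ^ b0 * (y : ℝ) ^ n ≤ 2 ^ (5 * m + 5) := by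
    have h : 2 ^ b0 * y ^ n ≤ 2 ^ (5 * m + 5) :=
      hM2.le.trans (Nat.pow_le_pow_right (by norm_num) (by omega))
    exact_mod_cast h
  have hqR : (1 : ℝ) ≤ q := by exact_mod_cast hq
  have hq2R : (q : ℝ) ≤ 2 ^ (3 * m) := by exact_mod_cast hq2
  have hB7 : (2 : ℝ) ^ 7 ≤ 2 ^ b0 := pow_le_pow_right₀ (by norm_num) (by omega)
  have hB0 : (1 : ℝ) ≤ 2 ^ b0 := one_le_pow₀ (by norm_num)
  have hm0 : (0 : ℝ) < 2 ^ m := by positivity
  have hm1R : (1 : ℝ) ≤ 2 ^ m := one_le_pow₀ (by norm_num)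
  refine ⟨k, k, hk3, by omega, ?_, ?_⟩
  · have h3 : q * |β| * 2 ^ (3 * m) ≤ 1 := by rw [mul_comm (q : ℝ)]; exact hβ
    have h0 : 0 ≤ q * |β| := by positivity
    have h4 : q * |β| * (2 ^ b0 * (y : ℝ) ^ n) ≤ 2 ^ (2 * m + 5) := by
      calc q * |β| * (2 ^ b0 * (y : ℝ) ^ n) ≤ q * |β| * 2 ^ (5 * m + 5) :=
            mul_le_mul_of_nonneg_left hNR h0
        _ = (q * |β| * 2 ^ (3 * m)) * 2 ^ (2 * m + 5) := by
            rw [mul_assoc (q * |β|), ← pow_add]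
            congr 2
            ring
        _ ≤ 1 * 2 ^ (2 * m + 5) := mul_le_mul_of_nonneg_right h3 (by positivity)
        _ = _ := one_mul _
    calc 4 * (q * |β| * (2 ^ b0 * (y : ℝ) ^ n)) ≤ 4 * 2 ^ (2 * m + 5) := by linarith
      _ = 2 ^ 7 * 2 ^ (2 * m) := by rw [pow_add]; ring
      _ ≤ 2 ^ b0 * (y : ℝ) ^ k := mul_le_mul hB7 hykR (by positivity) (by positivity)
  · -- the four terms
    have hyk0 : (0 : ℝ) < (y : ℝ) ^ k := lt_of_lt_of_le (by positivity) hykR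
    have e2 : (2 : ℝ) ^ (2 * m) = 2 ^ m * 2 ^ m := by rw [two_mul, pow_add]
    have hykm : (2 : ℝ) ^ m ≤ (y : ℝ) ^ k := by
      refine le_trans ?_ hykR
      rw [e2]
      nlinarith
    have t1 : 1 / (y : ℝ) ^ k ≤ 1 / 2 ^ m := one_div_le_one_div_of_le hm0 hykm
    have t2 : 1 / (2 ^ b0 * (y : ℝ) ^ k) ≤ 1 / 2 ^ m := by
      refine one_div_le_one_div_of_le hm0 ?_
      calc (2 : ℝ) ^ m ≤ (y : ℝ) ^ k := hykm
        _ = 1 * (y : ℝ) ^ k := (one_mul _).symm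
        _ ≤ _ := mul_le_mul_of_nonneg_right hB0 hyk0.le
    have t3 : q / (2 ^ b0 * (y : ℝ) ^ k * (y : ℝ) ^ k) ≤ 1 / 2 ^ m := by
      rw [div_le_div_iff₀ (by positivity) hm0]
      calc (q : ℝ) * 2 ^ m ≤ 2 ^ (3 * m) * 2 ^ m := mul_le_mul_of_nonneg_right hq2R hm0.le
        _ = 1 * (2 ^ (2 * m) * 2 ^ (2 * m)) := by rw [← pow_add, ← pow_add, one_mul]; congr 1; ring
        _ ≤ 1 * (2 ^ b0 * (y : ℝ) ^ k * (y : ℝ) ^ k) := by
            refine mul_le_mul_of_nonneg_left ?_ zero_le_one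
            refine mul_le_mul ?_ hykR (by positivity) (by positivity)
            calc (2 : ℝ) ^ (2 * m) = 1 * 2 ^ (2 * m) := (one_mul _).symm
              _ ≤ _ := mul_le_mul hB0 hykR (by positivity) (by positivity)
    have hZ0 : 0 < Z := lt_trans hm0 h2
    have t4 : 4 / Z ≤ 4 / 2 ^ m := by
      rw [div_le_div_iff₀ hZ0 hm0]
      linarith
    -- the logarithm
    have hL : Real.log (q * (y : ℝ) ^ k) ≤ 2 * M := by
      have h3 : (y : ℝ) ^ k ≤ 2 ^ (5 * m + 5) := by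
        have h4 : (y : ℝ) ^ k ≤ (y : ℝ) ^ n := pow_le_pow_right₀ (by exact_mod_cast hy0) (by omega)
        have h5 : (0 : ℝ) ≤ (y : ℝ) ^ n := by positivity
        nlinarith
      have h4 : (q : ℝ) * (y : ℝ) ^ k ≤ 2 ^ (8 * m + 5) := by
        calc (q : ℝ) * (y : ℝ) ^ k ≤ 2 ^ (3 * m) * 2 ^ (5 * m + 5) :=
              mul_le_mul hq2R h3 hyk0.le (by positivity)
          _ = _ := by rw [← pow_add]; congr 1; ring
      have h5 : Real.log (q * (y : ℝ) ^ k) ≤ (8 * m + 5 : ℕ) * Real.log 2 := by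
        rw [← Real.log_pow]
        exact Real.log_le_log (by positivity) h4
      have h6 : Real.log 2 < 0.6931471808 := Real.log_two_lt_d9
      have h7 : (5 * (m : ℝ)) ≤ M := by exact_mod_cast hm1
      have h8 : (36900000 : ℝ) ≤ M := by
        have : 36900000 ≤ M := by omega
        exact_mod_cast this
      have h9 : (0 : ℝ) ≤ ((8 * m + 5 : ℕ) : ℝ) := Nat.cast_nonneg _
      have h10 : ((8 * m + 5 : ℕ) : ℝ) * Real.log 2 ≤ ((8 * m + 5 : ℕ) : ℝ) * 1 :=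
        mul_le_mul_of_nonneg_left (by linarith) h9
      push_cast at h10 h5
      linarith
    have hL0 : 0 ≤ Real.log (q * (y : ℝ) ^ k) := by
      apply Real.log_nonneg
      have : (1 : ℝ) ≤ (y : ℝ) ^ k := le_trans (by linarith) hykm
      nlinarith
    have hbr : 1 / (y : ℝ) ^ k + 16 * (1 + Real.log (q * (y : ℝ) ^ k)) *
          (1 / (2 ^ b0 * (y : ℝ) ^ k) +
            q / (2 ^ b0 * (y : ℝ) ^ k * (y : ℝ) ^ k) + 4 / Z) ≤
        2 ^ (M / 1000) * (1 / 2 ^ m) := by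
      have h3 : 1 / (2 ^ b0 * (y : ℝ) ^ k) +
            q / (2 ^ b0 * (y : ℝ) ^ k * (y : ℝ) ^ k) + 4 / Z ≤ 6 * (1 / 2 ^ m) := by
        have : (4 : ℝ) / 2 ^ m = 4 * (1 / 2 ^ m) := by ring
        rw [this] at t4
        linarith
      have h4 : 16 * (1 + Real.log (q * (y : ℝ) ^ k)) *
          (1 / (2 ^ b0 * (y : ℝ) ^ k) +
            q / (2 ^ b0 * (y : ℝ) ^ k * (y : ℝ) ^ k) + 4 / Z) ≤
          16 * (1 + 2 * M) * (6 * (1 / 2 ^ m)) := by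
        refine mul_le_mul (by linarith) h3 (by positivity) (by positivity)
      have h5 := n6_big (M := M) (by omega)
      have h6 : (97 + 192 * (M : ℝ)) * (1 / 2 ^ m) ≤ 2 ^ (M / 1000) * (1 / 2 ^ m) :=
        mul_le_mul_of_nonneg_right h5 (by positivity)
      calc 1 / (y : ℝ) ^ k + 16 * (1 + Real.log (q * (y : ℝ) ^ k)) *
          (1 / (2 ^ b0 * (y : ℝ) ^ k) +
            q / (2 ^ b0 * (y : ℝ) ^ k * (y : ℝ) ^ k) + 4 / Z)
          ≤ 1 / 2 ^ m + 16 * (1 + 2 * (M : ℝ)) * (6 * (1 / 2 ^ m)) := add_le_add t1 h4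
        _ = (97 + 192 * (M : ℝ)) * (1 / 2 ^ m) := by ring
        _ ≤ _ := h6
    -- the power of q
    have hqp : (q : ℝ) ^ (1 / 999 : ℝ) ≤ (2 : ℝ) ^ ((3 * m : ℝ) / 999) := by
      calc (q : ℝ) ^ (1 / 999 : ℝ) ≤ ((2 : ℝ) ^ (3 * m)) ^ (1 / 999 : ℝ) :=
            Real.rpow_le_rpow (by linarith) hq2R (by norm_num)
        _ = (2 : ℝ) ^ ((3 * m : ℝ) / 999) := by
            rw [← Real.rpow_natCast, ← Real.rpow_mul (by norm_num)]
            congr 1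
            push_cast
            ring
    have hdn : 999 * (d * (k + k)) ≤ M := by
      have h3 : d * (k + k) ≤ d * n := Nat.mul_le_mul_left _ (by omega)
      have h4 : (999 * d + 1000) * n = 999 * (d * n) + 1000 * n := by ring
      omega
    have hdnR : 999 * ((d * (k + k) : ℕ) : ℝ) ≤ M := by exact_mod_cast hdn
    have hM1000 : 1000 * ((M / 1000 : ℕ) : ℝ) ≤ M := by
      have : 1000 * (M / 1000) ≤ M := Nat.mul_div_le M 1000
      exact_mod_cast this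
    have hm2R : (M : ℝ) ≤ 5 * m + 4 := by exact_mod_cast hm2
    have h8 : (36900000 : ℝ) ≤ M := by
      have : 36900000 ≤ M := by omega
      exact_mod_cast this
    have hpos : 0 ≤ 1 / (y : ℝ) ^ k + 16 * (1 + Real.log (q * (y : ℝ) ^ k)) *
          (1 / (2 ^ b0 * (y : ℝ) ^ k) +
            q / (2 ^ b0 * (y : ℝ) ^ k * (y : ℝ) ^ k) + 4 / Z) := by positivity
    calc (2 : ℝ) ^ (1 + d * (k + k)) * (q : ℝ) ^ (1 / 999 : ℝ) * _
        ≤ (2 : ℝ) ^ (1 + d * (k + k)) * (2 : ℝ) ^ ((3 * m : ℝ) / 999) * (2 ^ (M / 1000) * (1 / 2 ^ m)) := by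
          refine mul_le_mul (mul_le_mul_of_nonneg_left hqp (by positivity)) hbr hpos (by positivity)
      _ = (2 : ℝ) ^ ((1 + (d * (k + k) : ℕ) : ℝ) + (3 * m : ℝ) / 999 + ((M / 1000 : ℕ) : ℝ) - (m : ℝ)) := by
          rw [Real.rpow_sub (by norm_num), Real.rpow_add (by norm_num), Real.rpow_add (by norm_num),
            Real.rpow_add (by norm_num), Real.rpow_one, Real.rpow_natCast, Real.rpow_natCast, Real.rpow_natCast,
            pow_add, pow_one]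
          ring
      _ ≤ (2 : ℝ) ^ (-(M : ℝ) / 6) := by
          apply Real.rpow_le_rpow_of_exponent_le (by norm_num)
          linarith

/-- PIECE N6 (file Num6.lean, import Mathlib only): parameters in the range of large `Z`. -/
theorem num6 (d y n M q : ℕ) (β Z : ℝ) (hd : 40 ≤ d) (hy1 : y ≤ 2 ^ (1000 * (d + 1)))
    (hy2 : 2 ^ (1000 * (d + 1)) ≤ 2 ^ d * y)
    (hM1 : 2 ^ M ≤ 2 ^ (500 * (d + 1)) * y ^ n) (hM2 : 2 ^ (500 * (d + 1)) * y ^ n < 2 ^ (M + 1))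
    (hM : 900 * (1000 * (d + 1)) ≤ M) (hq : 1 ≤ q) (hq2 : q ≤ 2 ^ (3 * (M / 5)))
    (hβ : |β| * q * 2 ^ (3 * (M / 5)) ≤ 1)
    (hZ : Z = q * (1 + |β| * (2 ^ (500 * (d + 1)) * (y : ℝ) ^ n)))
    (h2 : 2 ^ (M / 5) < Z) :
    ∃ k1 k2 : ℕ, 1 ≤ k2 ∧ k1 + k2 ≤ n ∧
      4 * (q * |β| * (2 ^ (500 * (d + 1)) * (y : ℝ) ^ n)) ≤ 2 ^ (500 * (d + 1)) * (y : ℝ) ^ k1 ∧
      (2 : ℝ) ^ (1 + d * (k1 + k2)) * (q : ℝ) ^ (1 / 999 : ℝ) *
        (1 / (y : ℝ) ^ k2 + 16 * (1 + Real.log (q * (y : ℝ) ^ k2)) *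
          (1 / (2 ^ (500 * (d + 1)) * (y : ℝ) ^ k1) +
            q / (2 ^ (500 * (d + 1)) * (y : ℝ) ^ k1 * (y : ℝ) ^ k2) + 4 / Z)) ≤ (2 : ℝ) ^ (-(M : ℝ) / 6) := by
  exact num6_aux d y n M q _ _ rfl rfl β Z hd hy1 hy2 hM1 hM2 hM hq hq2 hβ hZ h2

end HadT3
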