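import Pool.Agent.Lib_MP_008adc_t3.Defs
import Pool.Agent.Lib_MP_008adc_c3.Major

/-! PIECE SZ: the frequencies with small `Z` (only the `x`-sum is used). -/

set_option autoImplicit false

namespace HadT3

open Finset HadLLL

theorem small_Z (b0 R h : ℕ) (hh : h < 2 ^ R) (h0 : h ≠ 0) (h1 : 2 * h ≠ 2 ^ R) (a : ℤ) (q : ℕ) (hq : 1 ≤ q)
    (hcop : IsCoprime a (q : ℤ)) (N Z : ℝ) (hN : 2 ^ (R + b0) ≤ N)
    (hZ : Z = q * (1 + |(h : ℝ) / 2 ^ R - a / q| * N)) (hZ2 : Z < 2 ^ b0) (n : ℕ) (hn : n % 2 = 1) :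
    ∑ x ∈ XO b0, eR ((h : ℝ) / 2 ^ R * ((x * n : ℕ) : ℝ)) = 0 := by
  have hqR : (1 : ℝ) ≤ (q : ℝ) := by exact_mod_cast hq
  have hNpos : 0 < N := lt_of_lt_of_le (by positivity) hN
  have ha0 : 0 ≤ a := by
    by_contra hneg
    have h2 : a ≤ -1 := by omega
    have h3 : (a : ℝ) ≤ -1 := by exact_mod_cast h2
    have h4 : (1 : ℝ) ≤ |(h : ℝ) / 2 ^ R - a / q| * q := by
      have h5 : (1 : ℝ) / q ≤ (h : ℝ) / 2 ^ R - a / q := by
        have h6 : (a : ℝ) / q ≤ (-1) / q := div_le_div_of_nonneg_right h3 (by linarith)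
        have h7 : (0 : ℝ) ≤ (h : ℝ) / 2 ^ R := by positivity
        have h8 : (-1 : ℝ) / q = -(1 / q) := by ring
        linarith
      have h6 : (1 : ℝ) / q ≤ |(h : ℝ) / 2 ^ R - a / q| := h5.trans (le_abs_self _)
      calc (1 : ℝ) = 1 / q * q := by field_simp
        _ ≤ _ := mul_le_mul_of_nonneg_right h6 (by linarith)
    have h5 : N ≤ Z := by
      rw [hZ]
      nlinarith
    have h6 : (2 : ℝ) ^ b0 ≤ 2 ^ (R + b0) := pow_le_pow_right₀ (by norm_num) (by omega)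
    linarith
  obtain ⟨a', rfl⟩ : ∃ a' : ℕ, a = (a' : ℤ) := ⟨a.toNat, (Int.toNat_of_nonneg ha0).symm⟩
  rw [Int.cast_natCast] at hZ
  have hR0 : h ≠ 2 ^ (R - 1) := by
    intro h2
    rcases Nat.eq_zero_or_pos R with h3 | h3
    · subst h3
      simp at hh
      exact h0 hh
    · apply h1
      rw [h2, ← pow_succ']
      congr 1
      omega
  have key := HadNT.major_arc R b0 b0 h a' q N ((h : ℝ) / 2 ^ R - a' / q) hh h0 hR0 hq
    (Nat.isCoprime_iff_coprime.mp hcop) (by ring) (by rw [← hZ]; exact hZ2)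
    (by rw [← pow_add]; exact hN) le_rfl n (Nat.odd_iff.mpr hn)
  have e : XO b0 = (range (2 ^ b0)).filter Odd := by
    unfold XO
    apply filter_congr
    intro x _
    rw [Nat.odd_iff]
  rw [e, ← key]
  refine sum_congr rfl fun x _ => ?_
  rw [Nat.cast_mul]

end HadT3
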