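import Pool.Agent.Lib_MP_008adc_t3.Defs
import Pool.Agent.Lib_MP_008adc_t3.Num5
import Pool.Agent.Lib_MP_008adc_t3.Num6
import Pool.Agent.Lib_MP_008adc_t3.SmallZ
import Pool.Agent.Lib_MP_008adc_t3.Core
import Pool.Agent.Lib_MP_008adc_t3.Dir
import Pool.Agent.Lib_MP_008adc_c3.Link

/-!
# LEMMA B: sixteen products of primes represent every even class modulo `2 ^ R`
-/

set_option autoImplicit false

namespace HadT3

open Finset HadLLL

private theorem pow_le_y {K y Pc d : ℕ} {P : ℕ → Finset ℕ} (ps : PS (1000 * (d + 1)) d K y Pc P) :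
    2 ^ (500 * (d + 1) + 1) ≤ y := by
  have h1 := ps.yd
  have h2 : 2 ^ d * 2 ^ (500 * (d + 1) + 1) ≤ 2 ^ d * y := by
    rw [← pow_add]
    exact (Nat.pow_le_pow_right (by norm_num) (by omega)).trans h1
  exact Nat.le_of_mul_le_mul_left h2 (by positivity)

private theorem Pc_pos {K y Pc d : ℕ} {P : ℕ → Finset ℕ} (ps : PS (1000 * (d + 1)) d K y Pc P) :
    0 < Pc := by
  rcases Nat.eq_zero_or_pos Pc with h | h
  · have h1 := ps.cd
    rw [h, mul_zero] at h1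
    have : 0 < 2 ^ (1000 * (d + 1)) := by positivity
    omega
  · exact h

/-- LEMMA B (file LemB.lean) -/
theorem lemB {e K y Pc d : ℕ} {P : ℕ → Finset ℕ} (hd : 4 * e + 40 ≤ d) (ps : PS (1000 * (d + 1)) d K y Pc P) (n : ℕ)
    (hn : n ≤ K) (M : ℕ) (hM1 : 2 ^ M ≤ 2 ^ (500 * (d + 1)) * y ^ n) (hM2 : 2 ^ (500 * (d + 1)) * y ^ n < 2 ^ (M + 1))
    (hM : 900 * (1000 * (d + 1)) ≤ M) (hMe : M ≤ 2 ^ e) (R : ℕ) (hR1 : 1 ≤ R) (hR : 2 ^ (R + 1000 * (d + 1)) ≤ 2 ^ (500 * (d + 1)) * y ^ n)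
    (c : ℕ) (hc : c % 2 = 0) : ∃ t : Fin 16 → ℕ, (∀ j, t j ∈ TB P (500 * (d + 1)) n) ∧
      (∑ j, t j) ≡ c [MOD 2 ^ R] := by
  classical
  have hy := pow_le_y ps
  have hy6 : 6 ≤ y := by
    have : 2 ^ 3 ≤ 2 ^ (500 * (d + 1) + 1) := Nat.pow_le_pow_right (by norm_num) (by omega)
    omega
  set N : ℝ := 2 ^ (500 * (d + 1)) * (y : ℝ) ^ n with hNdef
  have hNc : ((2 ^ (500 * (d + 1)) * y ^ n : ℕ) : ℝ) = N := by
    rw [hNdef]
    push_cast
    rfl
  have hNM : (2 : ℝ) ^ M ≤ N := by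
    rw [← hNc]
    exact_mod_cast hM1
  have hNR : (2 : ℝ) ^ (R + 1000 * (d + 1)) ≤ N := by
    rw [← hNc]
    exact_mod_cast hR
  have hN : (2 : ℝ) ^ R ≤ N :=
    (pow_le_pow_right₀ (by norm_num) (Nat.le_add_right _ _)).trans hNR
  have hN0 : 0 < N := lt_of_lt_of_le (by positivity) hN
  have hRM : R + 1000 * (d + 1) < M + 1 :=
    (Nat.pow_lt_pow_iff_right (by norm_num)).1 (hR.trans_lt hM2)
  have hTcard : (TB P (500 * (d + 1)) n).card = 2 ^ (500 * (d + 1) - 1) * Pc ^ n :=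
    TB_card ps (500 * (d + 1)) n (by omega) hy hn
  have hTodd := TB_odd ps hy6 (500 * (d + 1)) n hn
  have hTsum := TB_sum (A := ℂ) ps (500 * (d + 1)) n hy hn
  have hd40 : 40 ≤ d := by omega
  have hTcore := core hd40 ps n hn
  generalize TB P (500 * (d + 1)) n = T at *
  have hTpos : 0 < T.card := by
    rw [hTcard]
    exact Nat.mul_pos (Nat.pow_pos (by norm_num)) (Nat.pow_pos (Pc_pos ps))
  have hTne : T.Nonempty := Finset.card_pos.1 hTpos
  have hTr : (0 : ℝ) < (T.card : ℝ) := Nat.cast_pos.2 hTpos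
  -- Dirichlet
  have hdir := fun (h : ℕ) (hh : h < 2 ^ R) =>
    dir_approx R h (2 ^ (3 * (M / 5))) hh (Nat.one_le_two_pow)
  choose! a q hq1 hqQ hcop ha0 ha1 hdir using hdir
  set β : ℕ → ℝ := fun h => (h : ℝ) / 2 ^ R - a h / q h with hβ
  set Z : ℕ → ℝ := fun h => (q h : ℝ) * (1 + |β h| * N) with hZ
  refine HadB.link R hR1 T hTne (fun t => t) ?_ hN q a β Z hq1 ?_ ?_ ?_ ?_ c hc
  · intro t ht
    exact hTodd t ht
  · intro h hh
    have h1 := ha0 h hh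
    have h2 := ha1 h hh
    have h3 := hq1 h hh
    constructor <;> omega
  · intro h hh
    rw [hβ]
    ring
  · intro h hh
    exact le_refl _
  · intro h hh h0 h1
    have h2 : 2 * h ≠ 2 ^ R := by
      intro h3
      apply h1
      have h4 : 2 ^ R = 2 * 2 ^ (R - 1) := by
        rw [← pow_succ']
        congr 1
        omega
      omega
    have hSR : ∑ t ∈ T, eR ((h : ℝ) / 2 ^ R * (t : ℝ)) = SR T ((h : ℝ) / 2 ^ R) := rfl
    have hα : (h : ℝ) / 2 ^ R = (a h : ℝ) / q h + β h := by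
      rw [hβ]
      ring
    by_cases hc1 : Z h < 2 ^ (125 * (d + 1))
    · -- small `Z`
      left
      have h3 : Z h < 2 ^ (500 * (d + 1)) :=
        hc1.trans_le (pow_le_pow_right₀ (by norm_num) (by omega))
      have h4 : (2 : ℝ) ^ (R + 500 * (d + 1)) ≤ N := by
        have e0 : R + 500 * (d + 1) ≤ R + 1000 * (d + 1) :=
          Nat.add_le_add_left (Nat.mul_le_mul_right _ (by norm_num)) _
        have e1 : (1 : ℝ) ≤ 2 := by norm_num
        exact le_trans (pow_le_pow_right₀ e1 e0) hNR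
      have h5 : ∀ m ∈ PB P 0 n, ∑ x ∈ XO (500 * (d + 1)),
          eR ((h : ℝ) / 2 ^ R * ((x * m : ℕ) : ℝ)) = 0 := by
        intro m hm
        exact small_Z (500 * (d + 1)) R h hh h0 h2 (a h) (q h) (hq1 h hh) (hcop h hh) N (Z h) h4
          rfl h3 m (PB_odd ps hy6 n 0 (by omega) m hm)
      have h6 : SR T ((h : ℝ) / 2 ^ R) = 0 := by
        unfold SR
        rw [hTsum (fun t => eR ((h : ℝ) / 2 ^ R * (t : ℝ))), Finset.sum_comm]
        exact Finset.sum_eq_zero fun m hm => h5 m hm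
      rw [hSR, h6, norm_zero]
    · push Not at hc1
      right
      by_cases hc2 : Z h ≤ 2 ^ (M / 5)
      · -- middle range
        left
        have hlog : 140 * (M + 2) ≤ 2 ^ (50 * (d + 1)) := by
          have e1 : M + 2 ≤ 2 ^ (e + 2) := by
            have e2 : 1 ≤ 2 ^ e := Nat.one_le_two_pow
            rw [pow_add]
            omega
          calc 140 * (M + 2) ≤ 2 ^ 8 * 2 ^ (e + 2) := Nat.mul_le_mul (by norm_num) e1
            _ = 2 ^ (8 + (e + 2)) := (pow_add _ _ _).symm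
            _ ≤ 2 ^ (50 * (d + 1)) := Nat.pow_le_pow_right (by norm_num) (by omega)
        obtain ⟨k1, k2, hk2, hk, hX1, hfin⟩ := num5 d y n M (q h) (β h) (Z h) (by omega)
          ps.yb ps.yd hM1 hM hlog (hq1 h hh) rfl hc1 hc2
        have hcore := hTcore ((h : ℝ) / 2 ^ R) (β h) (Z h) (a h) (q h) (hq1 h hh)
          (hcop h hh) hα rfl k1 k2 hk2 hk hX1
        rw [hSR]
        have hZ128 : (128 : ℝ) ≤ Z h := by
          refine le_trans ?_ hc1
          calc (128 : ℝ) = 2 ^ 7 := by norm_num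
            _ ≤ 2 ^ (125 * (d + 1)) := pow_le_pow_right₀ (by norm_num) (by omega)
        refine ⟨hZ128, ?_⟩
        have hZ0 : 0 < Z h := by linarith
        have e1 : ‖SR T ((h : ℝ) / 2 ^ R)‖ ^ 2 ≤ (T.card : ℝ) ^ 2 * Z h ^ (-(1 / 2) : ℝ) :=
          hcore.trans (mul_le_mul_of_nonneg_left hfin (sq_nonneg _))
        have e2 : (Z h ^ (-(1 / 2) : ℝ)) ^ 2 * Z h = 1 := by
          rw [← Real.rpow_natCast, ← Real.rpow_mul hZ0.le]
          have : (-(1 / 2) : ℝ) * ((2 : ℕ) : ℝ) = -1 := by norm_num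
          rw [this, Real.rpow_neg_one]
          exact inv_mul_cancel₀ hZ0.ne'
        calc ‖SR T ((h : ℝ) / 2 ^ R)‖ ^ 4 * Z h = (‖SR T ((h : ℝ) / 2 ^ R)‖ ^ 2) ^ 2 * Z h := by ring
          _ ≤ ((T.card : ℝ) ^ 2 * Z h ^ (-(1 / 2) : ℝ)) ^ 2 * Z h :=
              mul_le_mul_of_nonneg_right (pow_le_pow_left₀ (by positivity) e1 2) hZ0.le
          _ = (T.card : ℝ) ^ 4 * ((Z h ^ (-(1 / 2) : ℝ)) ^ 2 * Z h) := by ring
          _ = (T.card : ℝ) ^ 4 := by rw [e2, mul_one]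
      · -- large `Z`
        push Not at hc2
        right
        have hβQ : |β h| * q h * 2 ^ (3 * (M / 5)) ≤ 1 := by
          have := hdir h hh
          push_cast at this
          exact this
        obtain ⟨k1, k2, hk2, hk, hX1, hfin⟩ := num6 d y n M (q h) (β h) (Z h) (by omega)
          ps.yb ps.yd hM1 hM2 hM (hq1 h hh) (hqQ h hh) hβQ rfl hc2
        have hcore := hTcore ((h : ℝ) / 2 ^ R) (β h) (Z h) (a h) (q h) (hq1 h hh)
          (hcop h hh) hα rfl k1 k2 hk2 hk hX1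
        rw [hSR]
        have e1 : ‖SR T ((h : ℝ) / 2 ^ R)‖ ^ 2 ≤ (T.card : ℝ) ^ 2 * (2 : ℝ) ^ (-(M : ℝ) / 6) :=
          hcore.trans (mul_le_mul_of_nonneg_left hfin (sq_nonneg _))
        have e2 : ((2 : ℝ) ^ (-(M : ℝ) / 6)) ^ 8 * 2 ^ (R + 2) ≤ 1 := by
          rw [← Real.rpow_natCast, ← Real.rpow_natCast, ← Real.rpow_mul (by norm_num),
            ← Real.rpow_add (by norm_num)]
          apply Real.rpow_le_one_of_one_le_of_nonpos (by norm_num)
          have e3 : ((R + 2 : ℕ) : ℝ) ≤ (M : ℝ) := by exact_mod_cast (by omega : R + 2 ≤ M)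
          have e4 : (0 : ℝ) ≤ (M : ℝ) := by positivity
          push_cast at e3 ⊢
          linarith
        calc ‖SR T ((h : ℝ) / 2 ^ R)‖ ^ 16 * 2 ^ (R + 2)
            = (‖SR T ((h : ℝ) / 2 ^ R)‖ ^ 2) ^ 8 * 2 ^ (R + 2) := by ring
          _ ≤ ((T.card : ℝ) ^ 2 * (2 : ℝ) ^ (-(M : ℝ) / 6)) ^ 8 * 2 ^ (R + 2) :=
              mul_le_mul_of_nonneg_right (pow_le_pow_left₀ (by positivity) e1 8) (by positivity)
          _ = (T.card : ℝ) ^ 16 * (((2 : ℝ) ^ (-(M : ℝ) / 6)) ^ 8 * 2 ^ (R + 2)) := by ring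
          _ ≤ (T.card : ℝ) ^ 16 * 1 := mul_le_mul_of_nonneg_left e2 (pow_nonneg hTr.le 16)
          _ = (T.card : ℝ) ^ 16 := mul_one _

end HadT3
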