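import Pool.Agent.Lib_MP_008adc_t3.Defs
import Pool.Agent.Lib_MP_008adc_c3.GcdAv

/-!
# `MP_008adc_co`, piece GA: the average of the gcd over `PB P i k`
-/

set_option autoImplicit false

namespace HadT3

open Finset

theorem gcd_avg_aux {b K y Pc d : ℕ} {P : ℕ → Finset ℕ} (ps : PS b d K y Pc P) (q : ℕ) :
    ∀ k i : ℕ, i + k ≤ K → ∃ T : Finset ℕ,
      (∀ p ∈ T, p.Prime ∧ p ∣ q ∧ ∃ j, i ≤ j ∧ j < i + k ∧ p ∈ P j) ∧
      ∑ w ∈ PB P i k, Nat.gcd q w ≤ Pc ^ k * 2 ^ ((d + 1) * T.card) := by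
  classical
  intro k
  induction k with
  | zero =>
    intro i _
    refine ⟨∅, by simp, ?_⟩
    simp [PB]
  | succ k ih =>
    intro i hi
    obtain ⟨T, hT, hle⟩ := ih (i + 1) (by omega)
    have hdis : Disjoint ((P i).filter (fun p => p ∣ q)) T := by
      rw [Finset.disjoint_left]
      intro p hp hpT
      obtain ⟨_, _, j, h1, h2, h3⟩ := hT p hpT
      exact Finset.disjoint_left.1 (ps.disj i (by omega) j (by omega) (by omega))
        (Finset.mem_filter.1 hp).1 h3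
    refine ⟨(P i).filter (fun p => p ∣ q) ∪ T, ?_, ?_⟩
    · intro p hp
      rcases Finset.mem_union.1 hp with h | h
      · rw [Finset.mem_filter] at h
        exact ⟨ps.prime i (by omega) p h.1, h.2, i, le_rfl, by omega, h.1⟩
      · obtain ⟨h1, h2, j, h3, h4, h5⟩ := hT p h
        exact ⟨h1, h2, j, by omega, by omega, h5⟩
    · rw [Finset.card_union_of_disjoint hdis, PB_sum ps i k (by omega)]
      have h1 : ∀ p ∈ P i, ∀ n ∈ PB P (i + 1) k, Nat.gcd q (p * n) = Nat.gcd q p * Nat.gcd q n := by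
        intro p hp n hn
        apply Nat.Coprime.gcd_mul
        rw [Nat.Prime.coprime_iff_not_dvd (ps.prime i (by omega) p hp)]
        intro hd
        obtain ⟨j, h4, h5, h6⟩ := PB_factor ps k (i + 1) (by omega) n hn p
          (ps.prime i (by omega) p hp) hd
        exact Finset.disjoint_left.1 (ps.disj i (by omega) j (by omega) (by omega)) hp h6
      have h2 : ∑ p ∈ P i, ∑ n ∈ PB P (i + 1) k, Nat.gcd q (p * n) =
          (∑ p ∈ P i, Nat.gcd q p) * ∑ n ∈ PB P (i + 1) k, Nat.gcd q n := by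
        rw [Finset.sum_mul_sum]
        exact Finset.sum_congr rfl fun p hp => Finset.sum_congr rfl fun n hn => h1 p hp n hn
      rw [h2]
      have h3 := Pool.Agent.HadNT.sum_gcd_le (q := q) (b := b) (P i) (ps.prime i (by omega))
        (fun p hp => (ps.lt i (by omega) p hp).le.trans ps.yb)
      set n := ((P i).filter (fun p => p ∣ q)).card
      have h4 : ∑ p ∈ P i, Nat.gcd q p ≤ Pc * 2 ^ ((d + 1) * n) := by
        refine h3.trans ?_
        rw [ps.card i (by omega)]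
        calc Pc + 2 ^ b * n ≤ Pc + 2 ^ d * Pc * n :=
              Nat.add_le_add_left (Nat.mul_le_mul_right n ps.cd) _
          _ = Pc * (1 + 2 ^ d * n) := by ring
          _ ≤ Pc * 2 ^ ((d + 1) * n) := Nat.mul_le_mul_left _ (Pool.Agent.HadNT.one_add_mul_le_pow d n)
      calc (∑ p ∈ P i, Nat.gcd q p) * ∑ n ∈ PB P (i + 1) k, Nat.gcd q n
          ≤ (Pc * 2 ^ ((d + 1) * n)) * (Pc ^ k * 2 ^ ((d + 1) * T.card)) := Nat.mul_le_mul h4 hle
        _ = Pc ^ (k + 1) * 2 ^ ((d + 1) * (n + T.card)) := by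
          rw [Nat.mul_add, pow_add]; ring

theorem gcd_avg_gen {b c K y Pc d : ℕ} {P : ℕ → Finset ℕ} (hbc : (d + 1) + c = b) (r : ℝ)
    (hr0 : 0 ≤ r) (hr : (d : ℝ) + 1 = c * r)
    (ps : PS b d K y Pc P) (i k : ℕ) (hik : i + k ≤ K) (q : ℕ) (hq : 1 ≤ q) :
    ∑ w ∈ PB P i k, (Nat.gcd q w : ℝ) ≤ (Pc : ℝ) ^ k * (q : ℝ) ^ r := by
  obtain ⟨T, hT, hle⟩ := gcd_avg_aux ps q k i hik
  have hbig : ∀ p ∈ T, 2 ^ c ≤ p := by
    intro p hp
    obtain ⟨_, _, j, _, h2, h3⟩ := hT p hp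
    have h4 := ps.close j (by omega) p h3
    have h5 := ps.K2
    have h6 := ps.yd
    obtain ⟨K', rfl⟩ : ∃ K', K = K' + 2 := ⟨K - 2, by omega⟩
    have h7 : (K' + 2 - 1) = K' + 1 := rfl
    rw [h7] at h4
    have h8 : (K' + 1) * y ≤ (K' + 1) * (2 * p) := by nlinarith
    have h9 : y ≤ 2 * p := Nat.le_of_mul_le_mul_left h8 (by omega)
    have h10 : 2 ^ (d + 1) * 2 ^ c ≤ 2 ^ (d + 1) * p := by
      calc 2 ^ (d + 1) * 2 ^ c = 2 ^ b := by rw [← pow_add, hbc]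
        _ ≤ 2 ^ d * y := h6
        _ ≤ 2 ^ d * (2 * p) := Nat.mul_le_mul_left _ h9
        _ = 2 ^ (d + 1) * p := by rw [pow_succ]; ring
    exact Nat.le_of_mul_le_mul_left h10 (Nat.two_pow_pos _)
  have hprod : ∏ p ∈ T, p ∣ q :=
    Finset.prod_primes_dvd q (fun p hp => (hT p hp).1.prime) (fun p hp => (hT p hp).2.1)
  have hpow : (2 ^ c) ^ T.card ≤ q := by
    calc (2 ^ c) ^ T.card = ∏ _p ∈ T, 2 ^ c := (Finset.prod_const _).symm
      _ ≤ ∏ p ∈ T, p := Finset.prod_le_prod' fun p hp => hbig p hp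
      _ ≤ q := Nat.le_of_dvd hq hprod
  have h1 : (∑ w ∈ PB P i k, (Nat.gcd q w : ℝ)) ≤ (Pc : ℝ) ^ k * 2 ^ ((d + 1) * T.card) := by
    exact_mod_cast hle
  refine h1.trans (mul_le_mul_of_nonneg_left ?_ (by positivity))
  have h2 : (2 : ℝ) ^ ((d + 1) * T.card) = (((2 : ℝ) ^ c) ^ T.card) ^ r := by
    rw [← pow_mul, ← Real.rpow_natCast, ← Real.rpow_natCast, ← Real.rpow_mul (by norm_num)]
    congr 1
    push_cast
    rw [hr]
    ring
  rw [h2]
  exact Real.rpow_le_rpow (by positivity) (by exact_mod_cast hpow) hr0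

theorem gcd_avg59 {K y Pc d : ℕ} {P : ℕ → Finset ℕ} (ps : PS (1000 * (d + 1)) d K y Pc P) (i k : ℕ) (hik : i + k ≤ K)
    (q : ℕ) (hq : 1 ≤ q) :
    ∑ w ∈ PB P i k, (Nat.gcd q w : ℝ) ≤ (Pc : ℝ) ^ k * (q : ℝ) ^ (1 / 999 : ℝ) := by
  refine gcd_avg_gen (c := 999 * (d + 1)) (by omega) (1 / 999) (by norm_num) ?_ ps i k hik q hq
  push_cast
  ring

end HadT3
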