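import Mathlib
import Pool.Agent.Lib_MP_008adc_t3.Defs

/-!
# Statements of the pieces (stubs; each piece goes to its own file with the same statement)
-/

set_option autoImplicit false

namespace HadT3

open Finset HadLLL

/-- PIECE N5 (file Num5.lean, import Mathlib only): parameters in the middle range. -/
theorem num5 (d y n M q : ℕ) (β Z : ℝ) (hd : 40 ≤ d) (hy1 : y ≤ 2 ^ (1000 * (d + 1)))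
    (hy2 : 2 ^ (1000 * (d + 1)) ≤ 2 ^ d * y)
    (hM1 : 2 ^ M ≤ 2 ^ (500 * (d + 1)) * y ^ n) (hM : 900 * (1000 * (d + 1)) ≤ M)
    (hlog : 140 * (M + 2) ≤ 2 ^ (50 * (d + 1))) (hq : 1 ≤ q)
    (hZ : Z = q * (1 + |β| * (2 ^ (500 * (d + 1)) * (y : ℝ) ^ n)))
    (h1 : (2 : ℝ) ^ (125 * (d + 1)) ≤ Z) (h2 : Z ≤ 2 ^ (M / 5)) :
    ∃ k1 k2 : ℕ, 1 ≤ k2 ∧ k1 + k2 ≤ n ∧
      4 * (q * |β| * (2 ^ (500 * (d + 1)) * (y : ℝ) ^ n)) ≤ 2 ^ (500 * (d + 1)) * (y : ℝ) ^ k1 ∧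
      (2 : ℝ) ^ (1 + d * (k1 + k2)) * (q : ℝ) ^ (1 / 999 : ℝ) *
        (1 / (y : ℝ) ^ k2 + 16 * (1 + Real.log (q * (y : ℝ) ^ k2)) *
          (1 / (2 ^ (500 * (d + 1)) * (y : ℝ) ^ k1) +
            q / (2 ^ (500 * (d + 1)) * (y : ℝ) ^ k1 * (y : ℝ) ^ k2) + 4 / Z)) ≤ Z ^ (-(1 / 2) : ℝ) := by
  sorry

/-- PIECE N6 (file Num6.lean, import Mathlib only): parameters in the range of large `Z`. -/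
theorem num6 (d y n M q : ℕ) (β Z : ℝ) (hd : 40 ≤ d) (hy1 : y ≤ 2 ^ (1000 * (d + 1)))
    (hy2 : 2 ^ (1000 * (d + 1)) ≤ 2 ^ d * y)
    (hM1 : 2 ^ M ≤ 2 ^ (500 * (d + 1)) * y ^ n) (hM2 : 2 ^ (500 * (d + 1)) * y ^ n < 2 ^ (M + 1))
    (hM : 900 * (1000 * (d + 1)) ≤ M) (hq : 1 ≤ q) (hq2 : q ≤ 2 ^ (3 * (M / 5)))
    (hβ : |β| * q * 2 ^ (3 * (M / 5)) ≤ 1)
    (hZ : Z = q * (1 + |β| * (2 ^ (500 * (d + 1)) * (y : ℝ) ^ n)))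
    (h2 : 2 ^ (M / 5) < Z) :
    ∃ k1 k2 : ℕ, 1 ≤ k2 ∧ k1 + k2 ≤ n ∧
      4 * (q * |β| * (2 ^ (500 * (d + 1)) * (y : ℝ) ^ n)) ≤ 2 ^ (500 * (d + 1)) * (y : ℝ) ^ k1 ∧
      (2 : ℝ) ^ (1 + d * (k1 + k2)) * (q : ℝ) ^ (1 / 999 : ℝ) *
        (1 / (y : ℝ) ^ k2 + 16 * (1 + Real.log (q * (y : ℝ) ^ k2)) *
          (1 / (2 ^ (500 * (d + 1)) * (y : ℝ) ^ k1) +
            q / (2 ^ (500 * (d + 1)) * (y : ℝ) ^ k1 * (y : ℝ) ^ k2) + 4 / Z)) ≤ (2 : ℝ) ^ (-(M : ℝ) / 6) := by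
  sorry

/-- PIECE SZ (file SmallZ.lean): the frequencies with small `Z` (only the `x`-sum is used). -/
theorem small_Z (b0 R h : ℕ) (hh : h < 2 ^ R) (h0 : h ≠ 0) (h1 : 2 * h ≠ 2 ^ R) (a : ℤ) (q : ℕ) (hq : 1 ≤ q)
    (hcop : IsCoprime a (q : ℤ)) (N Z : ℝ) (hN : 2 ^ (R + b0) ≤ N)
    (hZ : Z = q * (1 + |(h : ℝ) / 2 ^ R - a / q| * N)) (hZ2 : Z < 2 ^ b0) (n : ℕ) (hn : n % 2 = 1) :
    ∑ x ∈ XO b0, eR ((h : ℝ) / 2 ^ R * ((x * n : ℕ) : ℝ)) = 0 := by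
  sorry

/-- PIECE GA (file GcdPB.lean): average of the gcd. -/
theorem gcd_avg {K y Pc d : ℕ} {P : ℕ → Finset ℕ} (ps : PS (1000 * (d + 1)) d K y Pc P) (i k : ℕ) (hik : i + k ≤ K)
    (q : ℕ) (hq : 1 ≤ q) :
    ∑ w ∈ PB P i k, (Nat.gcd q w : ℝ) ≤ (Pc : ℝ) ^ k * (q : ℝ) ^ (1 / 999 : ℝ) := by
  sorry

/-- PIECE CO (file Core.lean): the bilinear estimate. -/
theorem core {K y Pc d : ℕ} {P : ℕ → Finset ℕ} (hd : 40 ≤ d) (ps : PS (1000 * (d + 1)) d K y Pc P) (n : ℕ) (hn : n ≤ K)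
    (α β Z : ℝ) (a : ℤ) (q : ℕ) (hq : 1 ≤ q) (hcop : IsCoprime a (q : ℤ)) (hα : α = a / q + β)
    (hZ : Z = q * (1 + |β| * (2 ^ (500 * (d + 1)) * (y : ℝ) ^ n)))
    (k1 k2 : ℕ) (hk2 : 1 ≤ k2) (hk : k1 + k2 ≤ n)
    (hX1 : 4 * (q * |β| * (2 ^ (500 * (d + 1)) * (y : ℝ) ^ n)) ≤ 2 ^ (500 * (d + 1)) * (y : ℝ) ^ k1) :
    ‖SR (TB P (500 * (d + 1)) n) α‖ ^ 2 ≤ ((TB P (500 * (d + 1)) n).card : ℝ) ^ 2 *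
      ((2 : ℝ) ^ (1 + d * (k1 + k2)) * (q : ℝ) ^ (1 / 999 : ℝ) *
        (1 / (y : ℝ) ^ k2 + 16 * (1 + Real.log (q * (y : ℝ) ^ k2)) *
          (1 / (2 ^ (500 * (d + 1)) * (y : ℝ) ^ k1) +
            q / (2 ^ (500 * (d + 1)) * (y : ℝ) ^ k1 * (y : ℝ) ^ k2) + 4 / Z))) := by
  sorry

/-- PIECE DI (file Dir.lean, import Mathlib only): Dirichlet approximation of `h/2^R`. -/
theorem dir_approx (R h Q : ℕ) (hh : h < 2 ^ R) (hQ : 1 ≤ Q) : ∃ (a : ℤ) (q : ℕ), 1 ≤ q ∧ q ≤ Q ∧ IsCoprime a (q : ℤ) ∧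
    0 ≤ a ∧ a ≤ q ∧ |(h : ℝ) / 2 ^ R - a / q| * q * Q ≤ 1 := by
  sorry

/-- PIECE PR (file Exists.lean): existence of the prime sets. -/
theorem exists_ps (e d : ℕ) (hd : 4 * e + 40 ≤ d) : ∃ (y Pc : ℕ) (P : ℕ → Finset ℕ),
    PS (1000 * (d + 1)) d (2 ^ e + 1) y Pc P := by
  sorry

/-- LEMMA B (file LemB.lean) -/
theorem lemB {e K y Pc d : ℕ} {P : ℕ → Finset ℕ} (hd : 4 * e + 40 ≤ d) (ps : PS (1000 * (d + 1)) d K y Pc P) (n : ℕ)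
    (hn : n ≤ K) (M : ℕ) (hM1 : 2 ^ M ≤ 2 ^ (500 * (d + 1)) * y ^ n) (hM2 : 2 ^ (500 * (d + 1)) * y ^ n < 2 ^ (M + 1))
    (hM : 900 * (1000 * (d + 1)) ≤ M) (hMe : M ≤ 2 ^ e) (R : ℕ) (hR1 : 1 ≤ R) (hR : 2 ^ (R + 1000 * (d + 1)) ≤ 2 ^ (500 * (d + 1)) * y ^ n)
    (c : ℕ) (hc : c % 2 = 0) : ∃ t : Fin 16 → ℕ, (∀ j, t j ∈ TB P (500 * (d + 1)) n) ∧
      (∑ j, t j) ≡ c [MOD 2 ^ R] := by
  sorry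

/-- FINAL (file RepB.lean) -/
theorem repB (e d : ℕ) (hd : 4 * e + 40 ≤ d) (z : ℕ) (h1 : 2 ^ (1000 * (1000 * (d + 1))) ≤ z) (h2 : z < 2 ^ (2 ^ e)) :
    ∃ (K R w eps : ℕ) (L : Fin 16 → List ℕ),
      (∀ i, (L i).length = K + 1 ∧ ∀ x ∈ L i, 1 ≤ x ∧ x < 2 ^ (1000 * (d + 1))) ∧ eps ≤ 1 ∧
      w < 2 ^ (2 * (1000 * (d + 1)) + 5) ∧ K * (500 * (d + 1)) ≤ Nat.log 2 z ∧
      z = eps + ∑ i, (L i).prod + 2 ^ R * w := by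
  sorry

end HadT3
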