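import Mathlib
import Pool.Agent.Lib_MP_008adc_t3.Stub

/-!
# Lemma B used once: a number is a sum of 16 products and a multiple of a power of two
-/

set_option autoImplicit false

namespace HadT3

open Finset HadLLL

/-- the choice of the number of factors. -/
theorem exists_n (b0 y E z : ℕ) (hy : 2 ≤ y) (h0 : 16 * 2 ^ b0 ≤ z) (hz : z < 2 ^ E) :
    ∃ n, n < E ∧ 16 * (2 ^ b0 * y ^ n) ≤ z ∧ z < 16 * (2 ^ b0 * y ^ (n + 1)) := by
  classical
  let f : ℕ → Prop := fun n => 16 * (2 ^ b0 * y ^ n) ≤ z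
  have hf0 : f 0 := by simpa [f] using h0
  have hf : f (Nat.findGreatest f E) := Nat.findGreatest_spec (Nat.zero_le E) hf0
  have hlt : Nat.findGreatest f E < E := by
    set n := Nat.findGreatest f E with hn
    have h1 : 16 * (2 ^ b0 * y ^ n) ≤ z := hf
    have h2 : 2 ^ n ≤ y ^ n := Nat.pow_le_pow_left hy n
    have h3 : y ^ n ≤ 16 * (2 ^ b0 * y ^ n) := by
      have : 1 ≤ 16 * 2 ^ b0 := Nat.mul_pos (by norm_num) (pow_pos (by norm_num) _)
      calc y ^ n = 1 * y ^ n := (one_mul _).symm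
        _ ≤ (16 * 2 ^ b0) * y ^ n := Nat.mul_le_mul_right _ this
        _ = 16 * (2 ^ b0 * y ^ n) := by ring
    have h4 : 2 ^ n < 2 ^ E := by omega
    exact (Nat.pow_lt_pow_iff_right (by norm_num)).mp h4
  refine ⟨Nat.findGreatest f E, hlt, hf, ?_⟩
  have := Nat.findGreatest_is_greatest (P := f) (n := E) (k := Nat.findGreatest f E + 1)
    (Nat.lt_succ_self _) hlt
  exact not_le.mp this

/-- FINAL -/
theorem repB51 (e d : ℕ) (hd : 4 * e + 40 ≤ d) (z : ℕ) (h1 : 2 ^ (1000 * (1000 * (d + 1))) ≤ z)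
    (h2 : z < 2 ^ (2 ^ e)) :
    ∃ (K R w eps : ℕ) (L : Fin 16 → List ℕ),
      (∀ i, (L i).length = K + 1 ∧ ∀ x ∈ L i, 1 ≤ x ∧ x < 2 ^ (1000 * (d + 1))) ∧ eps ≤ 1 ∧
      w < 2 ^ (2 * (1000 * (d + 1)) + 5) ∧ K * (500 * (d + 1)) ≤ Nat.log 2 z ∧
      z = eps + ∑ i, (L i).prod + 2 ^ R * w := by
  obtain ⟨y, Pc, P, ps⟩ := exists_ps e d hd
  have hB := @lemB e (2 ^ e + 1) y Pc d P hd ps
  have hTL := @TB_list (1000 * (d + 1)) d (2 ^ e + 1) y Pc P ps (500 * (d + 1))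
  have hTlt := @TB_lt (1000 * (d + 1)) d (2 ^ e + 1) y Pc P ps (500 * (d + 1))
  have hyd := ps.yd
  have hyb := ps.yb
  obtain ⟨b, hb⟩ : ∃ b, b = 1000 * (d + 1) := ⟨_, rfl⟩
  obtain ⟨b0, hb0⟩ : ∃ b, b = 500 * (d + 1) := ⟨_, rfl⟩
  rw [← hb] at h1 hyd hyb
  rw [← hb, ← hb0]
  rw [← hb] at hTL
  rw [← hb0] at hTL hTlt
  rw [← hb, ← hb0] at hB
  clear ps
  have hbb : b = 2 * b0 := by omega
  have hb0d : b0 + d ≤ b := by omega
  have hy0 : 2 ^ b0 ≤ y := by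
    have h3 := hyd
    have h4 : 2 ^ d * 2 ^ b0 ≤ 2 ^ d * y := by
      refine le_trans ?_ h3
      rw [← pow_add]
      exact Nat.pow_le_pow_right (by norm_num) (by omega)
    exact Nat.le_of_mul_le_mul_left h4 (pow_pos (by norm_num) d)
  have hb02 : 20500 ≤ b0 := by omega
  have hy2 : 2 ≤ y := by
    refine le_trans ?_ hy0
    calc 2 = 2 ^ 1 := by norm_num
      _ ≤ 2 ^ b0 := Nat.pow_le_pow_right (by norm_num) (by omega)
  have h16 : 16 * 2 ^ b0 ≤ z := by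
    refine le_trans ?_ h1
    calc 16 * 2 ^ b0 = 2 ^ (4 + b0) := by rw [pow_add]; norm_num
      _ ≤ 2 ^ (1000 * b) := Nat.pow_le_pow_right (by norm_num) (by omega)
  obtain ⟨n, hnE, hn1, hn2⟩ := exists_n b0 y (2 ^ e) z hy2 h16 h2
  have hBn := hB n (by omega)
  have hTn := hTlt n (by omega)
  have hTLn := hTL n (by omega) (by omega)
  clear hB hTL hTlt
  obtain ⟨N, hN⟩ : ∃ N, N = 2 ^ b0 * y ^ n := ⟨_, rfl⟩
  rw [← hN] at hBn hTn hn1
  have hNpos : 0 < N := by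
    rw [hN]
    exact Nat.mul_pos (pow_pos (by norm_num) _) (pow_pos (by omega) _)
  obtain ⟨M, hM⟩ : ∃ M, M = Nat.log 2 N := ⟨_, rfl⟩
  have hM1 : 2 ^ M ≤ N := by rw [hM]; exact Nat.pow_log_le_self 2 hNpos.ne'
  have hM2 : N < 2 ^ (M + 1) := by rw [hM]; exact Nat.lt_pow_succ_log_self (by norm_num) N
  -- upper bound of `z`
  have hz : z < 2 ^ (M + b + 5) := by
    calc z < 16 * (2 ^ b0 * y ^ (n + 1)) := hn2
      _ = 16 * N * y := by rw [hN, pow_succ]; ring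
      _ ≤ 16 * N * 2 ^ b := Nat.mul_le_mul_left _ hyb
      _ ≤ 16 * 2 ^ (M + 1) * 2 ^ b := Nat.mul_le_mul_right _ (Nat.mul_le_mul_left _ hM2.le)
      _ = 2 ^ (M + b + 5) := by
        rw [show M + b + 5 = 4 + (M + 1) + b by ring, pow_add _ (4 + (M + 1)), pow_add _ 4]
        norm_num
  have hMb : 1000 * b < M + b + 5 :=
    (Nat.pow_lt_pow_iff_right (by norm_num)).mp (lt_of_le_of_lt h1 hz)
  have hMe : M ≤ 2 ^ e := by
    have h3 : 2 ^ M < 2 ^ (2 ^ e) := by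
      calc 2 ^ M ≤ N := hM1
        _ ≤ 16 * N := by omega
        _ ≤ z := hn1
        _ < _ := h2
    exact ((Nat.pow_lt_pow_iff_right (by norm_num)).mp h3).le
  obtain ⟨c, eps, hc, heps, hcz⟩ : ∃ c eps : ℕ, c % 2 = 0 ∧ eps ≤ 1 ∧ c + eps = z :=
    ⟨z - z % 2, z % 2, by omega, by omega, by omega⟩
  have hR1 : 1 ≤ M - b := by omega
  have hRb : 2 ^ (M - b + b) ≤ N := by
    rw [Nat.sub_add_cancel (by omega)]; exact hM1
  obtain ⟨t, ht, hmod⟩ := hBn M hM1 hM2 (by omega) hMe (M - b) hR1 hRb c hc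
  have hsum : ∑ j, t j ≤ c := by
    have h3 : ∀ j, t j + 1 ≤ N := fun j => hTn (t j) (ht j)
    have h4 : ∑ j : Fin 16, (t j + 1) ≤ ∑ _j : Fin 16, N := Finset.sum_le_sum (fun j _ => h3 j)
    rw [Finset.sum_add_distrib] at h4
    simp only [Finset.sum_const, Finset.card_univ, Fintype.card_fin, smul_eq_mul, mul_one] at h4
    omega
  obtain ⟨w, hw⟩ : ∃ w, c = ∑ j, t j + 2 ^ (M - b) * w := by
    have h3 : 2 ^ (M - b) ∣ c - ∑ j, t j := (Nat.modEq_iff_dvd' hsum).mp hmod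
    obtain ⟨w, hw⟩ := h3
    exact ⟨w, by omega⟩
  have hwlt : w < 2 ^ (2 * b + 5) := by
    by_contra hcon
    rw [not_lt] at hcon
    have h5 : M + b + 5 = (M - b) + (2 * b + 5) := by omega
    have h3 : 2 ^ (M + b + 5) ≤ 2 ^ (M - b) * w := by
      rw [h5, pow_add]
      exact Nat.mul_le_mul_left _ hcon
    have h6 : c < 2 ^ (M + b + 5) := lt_of_le_of_lt (by omega) hz
    have h7 : 2 ^ (M - b) * w ≤ c := by rw [hw]; exact Nat.le_add_left _ _
    exact absurd (lt_of_lt_of_le h6 (h3.trans h7)) (lt_irrefl _)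
  choose L hL1 hL2 hL3 using fun j => hTLn (t j) (ht j)
  refine ⟨n, M - b, w, eps, L, fun i => ⟨hL1 i, hL2 i⟩, heps, hwlt, ?_, ?_⟩
  · refine Nat.le_log_of_pow_le (by norm_num) ?_
    calc 2 ^ (n * b0) = (2 ^ b0) ^ n := by rw [mul_comm, pow_mul]
      _ ≤ y ^ n := Nat.pow_le_pow_left hy0 n
      _ ≤ N := by rw [hN]; exact Nat.le_mul_of_pos_left _ (pow_pos (by norm_num) _)
      _ ≤ z := by omega
  · have h3 : ∑ i, (L i).prod = ∑ j, t j := Finset.sum_congr rfl (fun j _ => hL3 j)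
    rw [h3]
    omega

end HadT3
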